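import Pool.Agent.Y228.GN.Phi
import Pool.Agent.Y229.CF.NonG
import Pool.Agent.Y229.CF.MotX
import Pool.Agent.Y229.CF.OfLoc

/-!
# Nondegeneracy for all the faces of the Newton polyhedron; vertices
-/

set_option autoImplicit false

namespace Pool.Agent.Y228.GN

open MvPolynomial
open Pool.Agent.TH216.MF
open Pool.Agent.TH216.LX
open Pool.Agent.TH216.ND
open Pool.Agent.TH216.HD (Spans)
open Pool.Agent.W426.SM (gord face)
open Pool.Agent.W425.ND (onFace)
open Pool.Agent.W428.MOT (amin gbar dgbar cb)
open Pool.Agent.Y231.N4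
open Pool.Agent.Y228.ND4
open Pool.Agent.Y229.CF (NondegC)

variable {r N : ℕ}

/-- `v j` is a vertex of the Newton polyhedron `conv {v k} + ℝ_{≥ 0} ^ n`: it is not in the Newton
polyhedron of the other exponents. -/
def IsVert (v : Fin r → Fin N → ℕ) (j : Fin r) : Prop :=
  ¬ ∃ l : Fin r → ℝ, (∀ k, 0 ≤ l k) ∧ l j = 0 ∧ ∑ k, l k = 1 ∧
    ∀ i, ∑ k, l k * (v k i : ℝ) ≤ (v j i : ℝ)

/-- For every coordinate subspace `{x_i = 0, i ∈ J}`, except the origin, on which `f` vanishes: if a
vertex `v j` has a coordinate `1` in `J`, then no exponent of `f` which is not a vertex has the same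
coordinates in `J` as `v j`. -/
def GlobV (v : Fin r → Fin N → ℕ) : Prop :=
  ∀ J : Finset (Fin N), J ≠ Finset.univ → (∀ j, ∃ i ∈ J, v j i ≠ 0) →
    ∀ j l, IsVert v j → ¬ IsVert v l → (∃ i ∈ J, v j i = 1) → ∃ i ∈ J, v l i ≠ v j i

lemma sum_iVR (V : Finset (Fin r)) (f : Fin r → ℝ) (h : ∀ j, (∀ x, iV V x ≠ j) → f j = 0) :
    ∑ m, f m = ∑ x, f (iV V x) := by
  classical
  rw [← Finset.sum_image (s := Finset.univ) (g := iV V) (f := f) fun x _ y _ h => iV_inj V h]
  refine (Finset.sum_subset (Finset.subset_univ _) fun j _ hj => h j fun x hx => hj ?_).symm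
  exact Finset.mem_image.2 ⟨x, Finset.mem_univ _, hx⟩

theorem isVert_of_mem (v : Fin r → Fin N → ℕ) (hv : Function.Injective v) (V : Finset (Fin r))
    (hV : Spans v V) (hVert : Vert (vV v V)) {j : Fin r} (hj : j ∈ V) : IsVert v j := by
  classical
  obtain ⟨x0, rfl⟩ := iV_surj V hj
  rintro ⟨l, h1, h2, h3, h4⟩
  choose L g1 g2 g3 g4 using hV
  set c : Fin r → ℝ := fun m => ∑ k, l k * L k m with hc
  have hc0 : ∀ m, 0 ≤ c m := fun m => Finset.sum_nonneg fun k _ => mul_nonneg (h1 k) (g1 k m)
  have hcV : ∀ m, m ∉ V → c m = 0 := fun m hm => Finset.sum_eq_zero fun k _ => by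
    rw [g2 k m hm, mul_zero]
  have hc1 : ∑ m, c m = 1 := by
    rw [hc]
    dsimp only
    rw [Finset.sum_comm]
    simp only [← Finset.mul_sum, g3, mul_one, h3]
  have hcv : ∀ i, ∑ m, c m * (v m i : ℝ) ≤ (v (iV V x0) i : ℝ) := by
    intro i
    refine le_trans ?_ (h4 i)
    have e1 : ∑ m, c m * (v m i : ℝ) = ∑ k, l k * ∑ m, L k m * (v m i : ℝ) := by
      rw [hc]
      simp only [Finset.sum_mul, Finset.mul_sum]
      rw [Finset.sum_comm]
      exact Finset.sum_congr rfl fun k _ => Finset.sum_congr rfl fun m _ => by ring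
    rw [e1]
    exact Finset.sum_le_sum fun k _ => mul_le_mul_of_nonneg_left (g4 k i) (h1 k)
  have hcle : c (iV V x0) ≤ 1 := by
    rw [← hc1]
    exact Finset.single_le_sum (f := c) (fun m _ => hc0 m) (Finset.mem_univ _)
  rcases lt_or_eq_of_le hcle with hlt | heq
  · apply hVert x0
    have hpos : 0 < 1 - c (iV V x0) := by linarith
    have hsum : ∀ f : Fin r → ℝ, ∑ x, (if x = x0 then 0 else c (iV V x) / (1 - c (iV V x0))) *
        f (iV V x) = (∑ m, c m * f m - c (iV V x0) * f (iV V x0)) / (1 - c (iV V x0)) := by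
      intro f
      have e1 : ∑ m, c m * f m = ∑ x, c (iV V x) * f (iV V x) :=
        sum_iVR V (fun m => c m * f m) fun m hm => by
          rw [hcV m fun h => by
            obtain ⟨x, hx⟩ := iV_surj V h
            exact hm x hx, zero_mul]
      rw [e1, ← Finset.add_sum_erase Finset.univ (fun x => c (iV V x) * f (iV V x))
        (Finset.mem_univ x0), add_sub_cancel_left, ← Finset.add_sum_erase Finset.univ _
        (Finset.mem_univ x0), if_pos rfl, zero_mul, zero_add, Finset.sum_div]
      exact Finset.sum_congr rfl fun x hx => by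
        rw [if_neg (Finset.ne_of_mem_erase hx)]
        ring
    refine ⟨fun x => if x = x0 then 0 else c (iV V x) / (1 - c (iV V x0)), fun x => ?_, ?_, ?_,
      fun i => ?_⟩
    · dsimp only
      split_ifs
      · exact le_rfl
      · exact div_nonneg (hc0 _) hpos.le
    · dsimp only
      rw [if_pos rfl]
    · have h5 := hsum fun _ => 1
      simp only [mul_one] at h5
      rw [h5, hc1, div_self hpos.ne']
    · have h5 := hsum fun m => (v m i : ℝ)
      refine le_trans (le_of_eq h5) ?_
      rw [div_le_iff₀ hpos]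
      have := hcv i
      change _ ≤ (v (iV V x0) i : ℝ) * _
      nlinarith
  · -- all the exponents are equal to `v j`
    have hk : ∀ k, l k * (1 - L k (iV V x0)) = 0 := by
      have h5 : ∑ k, l k * (1 - L k (iV V x0)) = 0 := by
        simp only [mul_sub, mul_one]
        rw [Finset.sum_sub_distrib, h3]
        change 1 - c (iV V x0) = 0
        rw [heq, sub_self]
      have h6 : ∀ k, 0 ≤ l k * (1 - L k (iV V x0)) := fun k => by
        refine mul_nonneg (h1 k) ?_
        have : L k (iV V x0) ≤ 1 := by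
          rw [← g3 k]
          exact Finset.single_le_sum (f := L k) (fun m _ => g1 k m) (Finset.mem_univ _)
        linarith
      intro k
      exact (Finset.sum_eq_zero_iff_of_nonneg fun k _ => h6 k).1 h5 k (Finset.mem_univ k)
    have hge : ∀ k, l k ≠ 0 → ∀ i, (v (iV V x0) i : ℝ) ≤ (v k i : ℝ) := by
      intro k hlk i
      have h5 : L k (iV V x0) = 1 := by
        rcases mul_eq_zero.1 (hk k) with h | h
        · exact absurd h hlk
        · linarith
      refine le_trans ?_ (g4 k i)
      have h6 := Finset.single_le_sum (f := fun m => L k m * (v m i : ℝ))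
        (fun m _ => mul_nonneg (g1 k m) (Nat.cast_nonneg _)) (Finset.mem_univ (iV V x0))
      rw [h5, one_mul] at h6
      exact h6
    obtain ⟨k, hlk⟩ : ∃ k, l k ≠ 0 := by
      by_contra hcon
      push Not at hcon
      rw [Finset.sum_eq_zero fun k _ => hcon k] at h3
      exact zero_ne_one h3
    have heq' : v k = v (iV V x0) := by
      funext i
      have h5 : ∑ k, l k * ((v k i : ℝ) - v (iV V x0) i) ≤ 0 := by
        simp only [mul_sub]
        rw [Finset.sum_sub_distrib, ← Finset.sum_mul, h3, one_mul]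
        linarith [h4 i]
      have h6 : ∀ k, 0 ≤ l k * ((v k i : ℝ) - v (iV V x0) i) := by
        intro k
        by_cases h : l k = 0
        · rw [h, zero_mul]
        · exact mul_nonneg (h1 k) (sub_nonneg.2 (hge k h i))
      have h7 : ∑ k, l k * ((v k i : ℝ) - v (iV V x0) i) = 0 :=
        le_antisymm h5 (Finset.sum_nonneg fun k _ => h6 k)
      have h8 := (Finset.sum_eq_zero_iff_of_nonneg fun k _ => h6 k).1 h7 k (Finset.mem_univ k)
      have h9 := (mul_eq_zero.1 h8).resolve_left hlk
      have : (v k i : ℝ) = v (iV V x0) i := by linarith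
      exact_mod_cast this
    exact hlk (hv heq' ▸ h2)

theorem not_isVert (v : Fin r → Fin N → ℕ) (V : Finset (Fin r)) (hV : Spans v V) {j : Fin r}
    (hj : j ∉ V) : ¬ IsVert v j := by
  obtain ⟨l, h1, h2, h3, h4⟩ := hV j
  exact fun h => h ⟨l, h1, h2 j hj, h3, h4⟩

theorem sepV_of (v : Fin r → Fin N → ℕ) (hv : Function.Injective v) (V : Finset (Fin r))
    (hV : Spans v V) (hVert : Vert (vV v V)) (hG : GlobV v) (J : Finset (Fin N))
    (hJ : J ≠ Finset.univ) (hvan : ∀ j, ∃ i ∈ J, v j i ≠ 0) : SepV v V J :=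
  fun j hj i hi hj1 l hl => hG J hJ hvan j l (isVert_of_mem v hv V hV hVert hj)
    (not_isVert v V hV hl) ⟨i, hi, hj1⟩

/-- The polynomial `f = ∑_j a_j x ^ (v_j)` is nondegenerate for all the faces, compact or not, of its
Newton polyhedron `conv {v j} + ℝ_{≥ 0} ^ n`: for every `w` with nonnegative coordinates the sum of the
terms of `f` on which `w` is minimal and its derivatives have no common zero in the torus. -/
def NondegP (v : Fin r → Fin N → ℕ) (a : Fin r → ℂ) : Prop := open Classical in
  ∀ w : Fin N → ℝ, (∀ i, 0 ≤ w i) → ∀ z : Fin N → ℂ, (∀ i, z i ≠ 0) →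
    ¬ ((∑ j, if onFace v w j then a j * ∏ i, z i ^ v j i else 0) = 0 ∧
      ∀ i, (∑ j, if onFace v w j then a j * (v j i : ℂ) * ∏ i, z i ^ v j i else 0) = 0)

theorem NondegP.compact {v : Fin r → Fin N → ℕ} {a : Fin r → ℂ} (h : NondegP v a) :
    NondegC v a := fun w hw z hz => h w (fun i => (hw i).le) z hz

open Pool.Agent.W67.MM (special face_iff)

/-- nondegeneracy over the algebraic closure of `K` -/
theorem nonG_P (k K : Type) [Field k] [Algebra k ℂ] [Field K] [Algebra k K]
    (v : Fin r → Fin N → ℕ) (c : Fin r → k) (hr : 0 < r)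
    (hnd : NondegP v (fun j => algebraMap k ℂ (c j))) :
    Pool.Agent.W425.MM.Mot.NonG v (fun j => algebraMap k K (c j)) := by
  classical
  intro u z hz h0
  set z' : Fin N → AlgebraicClosure K := fun i => if ∃ j ∈ amin v u, v j i ≠ 0 then z i else 1
    with hz'
  have hz'0 : ∀ i, z' i ≠ 0 := by
    intro i
    rw [hz']
    by_cases h : ∃ j ∈ amin v u, v j i ≠ 0
    · simp only [if_pos h]
      exact hz i h
    · simp only [if_neg h]
      exact one_ne_zero
  have hmem : ∀ j, j ∈ amin v u ↔ face v u j := fun j => by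
    simp [amin, face]
  have hpow : ∀ j, j ∈ amin v u → ∏ i, z' i ^ v j i = ∏ i, z i ^ v j i := by
    intro j hj
    refine Finset.prod_congr rfl fun i _ => ?_
    by_cases h : v j i = 0
    · rw [h, pow_zero, pow_zero]
    · rw [hz']
      simp only [if_pos (show ∃ j ∈ amin v u, v j i ≠ 0 from ⟨j, hj, h⟩)]
  have hcb : ∀ j, cb (fun j => algebraMap k K (c j)) j = algebraMap k (AlgebraicClosure K) (c j) := by
    intro j
    unfold cb
    exact (IsScalarTower.algebraMap_apply k K (AlgebraicClosure K) (c j)).symm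
  have hg0 : (∑ j, if face v u j then algebraMap k (AlgebraicClosure K) (c j) *
      ∏ i, z' i ^ v j i else 0) = 0 := by
    refine Eq.trans ?_ h0
    unfold gbar
    rw [← Finset.sum_filter]
    refine Finset.sum_congr ?_ fun j hj => ?_
    · ext j
      simp [hmem]
    · rw [hcb, hpow j ((hmem j).2 (Finset.mem_filter.1 hj).2)]
  obtain ⟨i, hi⟩ : ∃ i, (∑ j, if face v u j then algebraMap k (AlgebraicClosure K) (c j) *
      ((v j i : AlgebraicClosure K) * ∏ i, z' i ^ v j i) else 0) ≠ 0 := by
    by_contra hcon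
    push Not at hcon
    obtain ⟨w, hw0, hw⟩ := special k (AlgebraicClosure K) z' hz'0
    apply hnd (fun i => (u i : ℝ)) (fun i => Nat.cast_nonneg _) w hw0
    constructor
    · have h1 := hw r (fun j => Pool.Agent.W426.SM.face v u j) v c hg0
      refine Eq.trans (Finset.sum_congr rfl fun j _ => ?_) h1
      by_cases hj : Pool.Agent.W426.SM.face v u j
      · rw [if_pos hj, if_pos ((face_iff hr v u j).2 hj)]
      · rw [if_neg hj, if_neg (fun h => hj ((face_iff hr v u j).1 h))]
    · intro i
      have h1 := hw r (fun j => Pool.Agent.W426.SM.face v u j) v (fun j => c j * (v j i : k)) (by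
        refine Eq.trans (Finset.sum_congr rfl fun j _ => ?_) (hcon i)
        split_ifs
        · rw [map_mul, map_natCast, mul_assoc]
        · rfl)
      refine Eq.trans (Finset.sum_congr rfl fun j _ => ?_) h1
      by_cases hj : Pool.Agent.W426.SM.face v u j
      · rw [if_pos hj, if_pos ((face_iff hr v u j).2 hj), map_mul, map_natCast]
      · rw [if_neg hj, if_neg (fun h => hj ((face_iff hr v u j).1 h))]
  refine ⟨i, fun hd => hi ?_⟩
  have h2 : (∑ j, if face v u j then algebraMap k (AlgebraicClosure K) (c j) *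
      ((v j i : AlgebraicClosure K) * ∏ i, z' i ^ v j i) else 0) =
      z i * dgbar v (cb (fun j => algebraMap k K (c j))) (amin v u) i z := by
    rw [dgbar, Finset.mul_sum, ← Finset.sum_filter]
    refine Finset.sum_congr ?_ fun j hj => ?_
    · ext j
      simp [hmem]
    · have hj' := (hmem j).2 (Finset.mem_filter.1 hj).2
      rw [hcb, hpow j hj']
      by_cases h : v j i = 0
      · rw [h]
        simp
      · have h3 : ∏ i', z i' ^ v j i' = z i * ∏ i', z i' ^ (v j i' - if i' = i then 1 else 0) := by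
          rw [← Finset.mul_prod_erase Finset.univ (fun i' => z i' ^ v j i') (Finset.mem_univ i),
            ← Finset.mul_prod_erase Finset.univ
              (fun i' => z i' ^ (v j i' - if i' = i then 1 else 0)) (Finset.mem_univ i), ← mul_assoc]
          congr 1
          · simp only [if_true]
            rw [← pow_succ', Nat.sub_add_cancel (Nat.pos_of_ne_zero h)]
          · refine Finset.prod_congr rfl fun i' hi' => ?_
            rw [if_neg (Finset.ne_of_mem_erase hi'), Nat.sub_zero]
        rw [h3]
        ring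
  rw [h2, hd, mul_zero]

end Pool.Agent.Y228.GN
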