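import Pool.Agent.Y228.GN.Non

/-!
# The relations and the levels, with the vertices
-/

set_option autoImplicit false

namespace Pool.Agent.Y228.GN

open Pool.Agent.H628R4.TP Pool.Agent.W425.MM
open Pool.Agent.W425.ND (spa Nondeg prodb prodb_eval parts)
open Pool.Agent.W426.SM (gord IsRay face)
open Pool.Agent.W425.SV (RelV Kil1)
open Pool.Agent.W425.SG (UnitEq)
open Pool.Agent.TH216.HD hiding IsRay
open Pool.Agent.TH216.HDNL
open Pool.Agent.TH216.ND
open Pool.Agent.TH216.MF (RelG KilU KRelJ RecJ)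
open Pool.Agent.TH216.MC (pos_of_ray)
open Pool.Agent.TH216.MF (ratR)
open Pool.Agent.TH216.LX (Vert)
open Pool.Agent.W428.MOT (Pt Constr ratRing sp Lu MK EMeas)
open Pool.Agent.W375.MG (zetaG Good)
open Pool.Agent.Y231.N4
open Pool.Agent.Y228.ND4
open Pool.Agent.Y229.CF

variable {r : ℕ}

/-- The relations and the levels of a nondegenerate polynomial in four variables. -/
theorem levelsV (hr : 0 < r) (v : Fin r → Fin 4 → ℕ) (hv : Function.Injective v)
    (hv0 : ∀ j, v j ≠ 0) (c : Fin r → ℂ) (hnd : NondegC v c) : ∃ (V : Finset (Fin r)) (_ : Spans v V), Vert (vV v V) ∧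
    (∀ α, ¬ PW True (spa v c) α → ∃ (θ : Fin V.card → ℤ) (p : Polynomial ℂ),
      RelG (vV v V) (Kil1 (vV v V)) (KilU (vV v V) θ) p ∧ p.eval (α : ℂ) ≠ 0) ∧
    ∀ a : Fin 4 → ℕ, IsRay v a → 0 < gord v a →
      ¬ PW True (spa v c) (-(((∑ i, a i : ℕ) : ℚ) / gord v a)) →
      HypS4 (vV v V) ((((∑ i, a i : ℕ) : ℚ) / gord v a : ℚ) : ℝ) := by
  classical
  have hne : NeZero r := ⟨by omega⟩
  obtain ⟨V, hV, hVert⟩ := exists_vert v hv
  have hcard := (gord_vV hr v V hV 0).1
  have hgord : ∀ a, gord (vV v V) a = gord v a := fun a => (gord_vV hr v V hV a).2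
  set P : ℚ → Prop := PW True (spa v c) with hPdef
  have hroot : ∀ σ : ℚ, (∃ a : Fin 4 → ℕ, 0 < gord v a ∧
      (-(σ : ℂ)) = -(((∑ i, a i : ℕ) : ℂ) / gord v a)) → (∀ p : Polynomial ℂ,
      (∀ θ : Fin r → ℝ, LinearIndependent ℚ θ → RelV v θ True p) →
        p.eval (-(σ : ℂ)) = 0) → P (-σ) := by
    rintro σ ⟨a, hg, he⟩ h b hb1 hb
    obtain ⟨K, L, hK⟩ := relV_all v _ hv hv0 hnd b hb
    have h1 := h (prodb b K * dL L) hK
    rw [Polynomial.eval_mul, mul_eq_zero, he] at h1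
    have h1 := h1.resolve_right (dL_neg v a L hg)
    rw [← he, prodb_eval, Finset.prod_eq_zero_iff] at h1
    obtain ⟨i, -, hi⟩ := h1
    refine ⟨(i : ℤ), ?_⟩
    push_cast
    exact hi
  refine ⟨V, hV, hVert, fun α hα => ?_, fun a ha hg hcon => ?_⟩
  · rw [hPdef] at hα
    unfold PW at hα
    push Not at hα
    obtain ⟨b, hb1, hb, hroot⟩ := hα
    obtain ⟨K, L, hK⟩ := relV_all v _ hv hv0 hnd b hb
    obtain ⟨θ, hθ⟩ := rel_vV v V hV True (prodb b K * dL L) hK
    refine ⟨θ, prodb b K * dL L, hθ, ?_⟩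
    rw [Polynomial.eval_mul, prodb_eval]
    refine mul_ne_zero (Finset.prod_ne_zero_iff.2 fun i _ => ?_) (dL_ne _ _ fun t ht => ?_)
    · exact_mod_cast hroot (i : ℤ)
    · apply hroot ((t : ℤ) + 1)
      rw [← hb1]
      congr 1
      have h1 : (α : ℂ) = t := ht
      rw [h1]
      push_cast
      ring
  · have hgC : ((gord v a : ℕ) : ℂ) ≠ 0 := by exact_mod_cast hg.ne'
    have hgq : ((gord v a : ℕ) : ℚ) ≠ 0 := by exact_mod_cast hg.ne'
    set σ : ℚ := ((∑ i, a i : ℕ) : ℚ) / gord v a with hσ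
    by_cases hint : ∃ t : ℤ, σ = t
    · obtain ⟨t, ht⟩ := hint
      exfalso
      apply hcon
      intro b hb1 _
      refine ⟨1 - t, ?_⟩
      rw [ht]
      have e : (((-(t : ℚ) : ℚ) : ℂ) - ((1 - t : ℤ) : ℂ)) = -1 := by
        push_cast
        ring
      rw [e, hb1]
    · refine AZ.main (vV v V) hcard hVert (σ : ℝ) ?_ ?_ ?_
      · intro h
        exact hint ⟨1, by exact_mod_cast h⟩
      · intro h
        exact hint ⟨2, by exact_mod_cast h⟩
      intro a' ha' hg' hl
      have hgq' : ((gord (vV v V) a' : ℕ) : ℚ) ≠ 0 := by exact_mod_cast hg'.ne'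
      have hl' : ((∑ i, a' i : ℕ) : ℚ) / gord (vV v V) a' = σ := by
        apply Rat.cast_injective (α := ℝ)
        push_cast
        push_cast at hl
        exact hl
      have h3 : ∑ i, a' i ≠ gord (vV v V) a' := by
        intro h3
        apply hint
        refine ⟨1, ?_⟩
        rw [← hl', h3, div_self hgq']
        norm_num
      have h4 : ∑ i, a' i ≠ 2 * gord (vV v V) a' := by
        intro h4
        apply hint
        refine ⟨2, ?_⟩
        rw [← hl', h4]
        push_cast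
        rw [mul_div_assoc, div_self hgq', mul_one]
      have hg'' : 0 < gord v a' := by rw [← hgord]; exact hg'
      have hσ' : (-(σ : ℂ)) = -(((∑ i, a' i : ℕ) : ℂ) / gord v a') := by
        rw [← hl', hgord]
        push_cast
        rfl
      rcases fac (vV v V) hcard hVert a' ha' hg' h3 h4 with h5 | h5 | h5 | h5
      · exfalso
        apply hcon
        refine hroot σ ⟨a', hg'', hσ'⟩ fun p hp => ?_
        rw [hσ']
        exact a5 v True p hp a' hg'' (nonB_iV hr v V hV a' h5)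
      · exfalso
        apply hcon
        refine hroot σ ⟨a', hg'', hσ'⟩ fun p hp => ?_
        obtain ⟨θ, hθ, hR⟩ := stR1 v a' hg'' (circ_iV hr v V hV a' h5)
        rw [hσ']
        exact hR p (hp θ hθ)
      · exfalso
        apply hcon
        refine hroot σ ⟨a', hg'', hσ'⟩ fun p hp => ?_
        obtain ⟨θ, hθ, hR⟩ := stR2 v a' hg'' (pnt_iV hr v V hV a' h5)
        rw [hσ']
        exact hR p (hp θ hθ)
      · exact h5


/-- the candidates which are not roots modulo integers -/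
def BadL (v : Fin r → Fin 4 → ℕ) (V : Finset (Fin r)) (P : ℚ → Prop) (σ : ℚ) : Prop :=
  HypS4 (vV v V) (σ : ℝ) ∧ ¬ P (-σ)

/-- **Nondegenerate polynomials in four variables, all points, equivariant.** -/
theorem nd4G {k : Type} [Field k] [Algebra k ℂ] (hr : 0 < r)
    (v : Fin r → Fin 4 → ℕ) (hv : Function.Injective v) (hv0 : ∀ j, v j ≠ 0) (c : Fin r → k)
    (hc : ∀ j, c j ≠ 0) (hnd : NondegP v (fun j => algebraMap k ℂ (c j))) (Gl : Prop)
    (hGl : Gl → GlobV v) :
    ∃ S : Finset (ℤ × ℤ),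
      (∀ p ∈ S, p.1 < 0 ∧ 0 < p.2 ∧ ∀ b : Polynomial ℂ,
        IsLocalBFunction (spa v (fun j => algebraMap k ℂ (c j))) b →
          ∃ i : ℤ, b.eval ((p.1 : ℂ) / p.2 - i) = 0) ∧
      (∀ (K : Type) [Field K] [Algebra k K] (W : Set (Pt K (Fin 4)))
        (E : Set (AlgebraicClosure K)), Constr W → Good E → ((∀ z ∈ W, ∀ i, z i = 0) ∨ Gl) →
        zetaG (spa v (fun j => algebraMap k K (c j))) W E ∈ ratRing K S) ∧
      (∀ f : MvPolynomial (Fin 4) k, spa v c = f →
        ∀ (R : Type) [CommRing R] (y : Rˣ) (M : EMeas f R), M.L = (y : R) →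
        (OrigM M ∨ Gl) → serM M y ∈ ratR y (S : Set (ℤ × ℤ))) := by
  classical
  have hne : NeZero r := ⟨by omega⟩
  have hkc : CharZero k := RingHom.charZero (algebraMap k ℂ)
  obtain ⟨V, hV, hVert, hP, hL⟩ := levelsV hr v hv hv0 _ hnd.compact
  set P : ℚ → Prop := PW True (spa v (fun j => algebraMap k ℂ (c j))) with hPdef
  obtain ⟨S, hS, hz1, hz2⟩ := fin4G v hv hr (BadL v V P) Gl
    (fun q hq e he he' T0 hT0 σ hσ hlog => hb_nd4 hr v hv V hV P hP q hq e he he' T0 hT0 σ hσ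
      hlog)
    (fun hG J hJ q hq e he T0 hT0 σ hσ hlog => hbJ_nd4 hr v V hV P hP
      (fun J hJ hvan => sepV_of v hv V hV hVert (hGl hG) J hJ hvan) J hJ q hq e he T0 hT0 σ hσ hlog)
  have hspa : ∀ {K : Type} [Field K] (c' : Fin r → K), spa v c' = sp 0 v c' 1 := by
    intro K _ c'
    unfold sp spa
    simp
  refine ⟨S, fun p hp => ?_, fun K _ _ W E hW hE hWD => ?_, fun f hf R _ y M hML hO => ?_⟩
  · have hroot : ∀ b : Polynomial ℂ,
        IsLocalBFunction (spa v (fun j => algebraMap k ℂ (c j))) b →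
        b.eval (-1) = 0 ∧ UnitEq True (spa v (fun j => algebraMap k ℂ (c j))) b := fun b hb =>
      of_local' v (by omega) _ hv hv0 hnd.compact b hb
    rcases hS p hp with rfl | ⟨a, ha, hg, hn, rfl⟩
    · refine ⟨by norm_num, by norm_num, fun b hb => ⟨0, ?_⟩⟩
      have h1 : (((-1 : ℤ) : ℂ) / ((1 : ℤ) : ℂ) - ((0 : ℤ) : ℂ)) = -1 := by
        push_cast
        ring
      rw [h1, (hroot b hb).1]
    refine ⟨pos_of_ray ha, Int.natCast_pos.2 hg, fun b hb => ?_⟩
    set σ : ℚ := ((∑ i, a i : ℕ) : ℚ) / gord v a with hσ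
    have hPσ : P (-σ) := by
      by_contra hcon
      exact hn ⟨hL a ha hg hcon, hcon⟩
    obtain ⟨i, hi⟩ := hPσ b (hroot b hb).1 (hroot b hb).2
    refine ⟨i, ?_⟩
    have e : ((-((∑ i, a i : ℕ) : ℤ) : ℤ) : ℂ) / ((gord v a : ℤ) : ℂ) =
        ((-σ : ℚ) : ℂ) := by
      rw [hσ]
      push_cast
      ring
    rw [e]
    exact hi
  · have hK : CharZero K := charZero_of_injective_algebraMap (algebraMap k K).injective
    rw [hspa]
    exact hz1 K _ (nonG_P k K v c hr hnd) (fun j => (map_ne_zero _).2 (hc j)) W E hW hE hWD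
  · rw [hspa] at hf
    subst hf
    have h1 := nonG_P k k v c hr hnd
    simp only [Algebra.algebraMap_self, RingHom.id_apply] at h1
    refine hz2 k c h1 hc (fun u hu => ?_) R y M hML hO
    obtain ⟨j, hj⟩ := Pool.Agent.W803.SM.exists_gord hr v u
    rw [← hj]
    obtain ⟨i, hi⟩ : ∃ i, v j i ≠ 0 := by
      by_contra hcon
      push Not at hcon
      exact hv0 j (funext hcon)
    refine lt_of_lt_of_le ?_ (Finset.single_le_sum (f := fun i => u i * v j i)
      (fun _ _ => Nat.zero_le _) (Finset.mem_univ i))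
    exact Nat.mul_pos (Nat.pos_of_ne_zero ((hu i).2 (Finset.mem_univ i)))
      (Nat.pos_of_ne_zero hi)

end Pool.Agent.Y228.GN
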