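import Pool.Agent.Y228.GN.EC2
import Pool.Agent.Y228.GN.Main
import Pool.Agent.Y231.N4.E1

/-!
# The equivariant motivic zeta function at the origin, nondegenerate for the compact faces
-/

set_option autoImplicit false

namespace Pool.Agent.Y228.GN

open Pool.Agent.H628R4.TP Pool.Agent.W425.MM
open Pool.Agent.W425.ND (spa)
open Pool.Agent.W426.SM (gord IsRay face)
open Pool.Agent.W425.SG (UnitEq)
open Pool.Agent.TH216.MC (pos_of_ray)
open Pool.Agent.TH216.MF (ratR)
open Pool.Agent.W428.MOT (sp EMeas)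
open Pool.Agent.Y231.N4
open Pool.Agent.Y228.ND4
open Pool.Agent.TH216.ND
open Pool.Agent.Y229.CF

variable {r : ℕ}

/-- **Polynomials in four variables which are nondegenerate for the compact faces: the equivariant
series of the arcs with origin `0`.** -/
theorem nd4c {k : Type} [Field k] [Algebra k ℂ] (hr : 0 < r)
    (v : Fin r → Fin 4 → ℕ) (hv : Function.Injective v) (hv0 : ∀ j, v j ≠ 0) (c : Fin r → k)
    (hc : ∀ j, c j ≠ 0) (hnd : NondegC v (fun j => algebraMap k ℂ (c j))) :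
    ∃ S : Finset (ℤ × ℤ),
      (∀ p ∈ S, p.1 < 0 ∧ 0 < p.2 ∧ ∀ b : Polynomial ℂ,
        IsLocalBFunction (spa v (fun j => algebraMap k ℂ (c j))) b →
          ∃ i : ℤ, b.eval ((p.1 : ℂ) / p.2 - i) = 0) ∧
      (∀ f : MvPolynomial (Fin 4) k, spa v c = f →
        ∀ (R : Type) [CommRing R] (y : Rˣ) (M : EMeas f R), M.L = (y : R) →
        OrigM M → serM M y ∈ ratR y (S : Set (ℤ × ℤ))) := by
  classical
  have hne : NeZero r := ⟨by omega⟩
  have hkc : CharZero k := RingHom.charZero (algebraMap k ℂ)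
  obtain ⟨V, hV, hVert, hP, hL⟩ := levelsV hr v hv hv0 _ hnd
  set P : ℚ → Prop := PW True (spa v (fun j => algebraMap k ℂ (c j))) with hPdef
  obtain ⟨S, hS, hz2⟩ := fin4c v hv hr (BadL v V P)
    (fun q hq e he he' T0 hT0 σ hσ hlog => hb_nd4 hr v hv V hV P hP q hq e he he' T0 hT0 σ hσ
      hlog)
  have hspa : ∀ {K : Type} [Field K] (c' : Fin r → K), spa v c' = sp 0 v c' 1 := by
    intro K _ c'
    unfold sp spa
    simp
  refine ⟨S, fun p hp => ?_, fun f hf R _ y M hML hO => ?_⟩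
  · have hroot : ∀ b : Polynomial ℂ,
        IsLocalBFunction (spa v (fun j => algebraMap k ℂ (c j))) b →
        b.eval (-1) = 0 ∧ UnitEq True (spa v (fun j => algebraMap k ℂ (c j))) b := fun b hb =>
      of_local' v (by omega) _ hv hv0 hnd b hb
    rcases hS p hp with rfl | ⟨a, ha, hg, hn, rfl⟩
    · refine ⟨by norm_num, by norm_num, fun b hb => ⟨0, ?_⟩⟩
      have h1 : (((-1 : ℤ) : ℂ) / ((1 : ℤ) : ℂ) - ((0 : ℤ) : ℂ)) = -1 := by
        push_cast
        ring
      rw [h1, (hroot b hb).1]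
    refine ⟨pos_of_ray ha, Int.natCast_pos.2 hg, fun b hb => ?_⟩
    set σ : ℚ := ((∑ i, a i : ℕ) : ℚ) / gord v a with hσ
    have hPσ : P (-σ) := by
      by_contra hcon
      exact hn ⟨hL a ha hg hcon, hcon⟩
    obtain ⟨i, hi⟩ := hPσ b (hroot b hb).1 (hroot b hb).2
    refine ⟨i, ?_⟩
    have e : ((-((∑ i, a i : ℕ) : ℤ) : ℤ) : ℂ) / ((gord v a : ℤ) : ℂ) =
        ((-σ : ℚ) : ℂ) := by
      rw [hσ]
      push_cast
      ring
    rw [e]
    exact hi
  · rw [hspa] at hf
    subst hf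
    have h1 := nonG_of' k k v c hr hnd
    simp only [Algebra.algebraMap_self, RingHom.id_apply] at h1
    refine hz2 k c (fun u hu => h1 u fun i hi => (hu i).2 hi) hc (fun u hu => ?_) R y M hML hO
    obtain ⟨j, hj⟩ := Pool.Agent.W803.SM.exists_gord hr v u
    rw [← hj]
    obtain ⟨i, hi⟩ : ∃ i, v j i ≠ 0 := by
      by_contra hcon
      push Not at hcon
      exact hv0 j (funext hcon)
    refine lt_of_lt_of_le ?_ (Finset.single_le_sum (f := fun i => u i * v j i)
      (fun _ _ => Nat.zero_le _) (Finset.mem_univ i))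
    exact Nat.mul_pos (Nat.pos_of_ne_zero ((hu i).2 (Finset.mem_univ i)))
      (Nat.pos_of_ne_zero hi)

end Pool.Agent.Y228.GN
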