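import Pool.Agent.Y228.GN.ECn
import Pool.Agent.Y228.GN.Orig
import Pool.Agent.Y229.CF.MotX
import Pool.Agent.Y229.CF.OfLoc

/-!
# Nondegenerate polynomials in any number of variables: conditions on the vertices
-/

set_option autoImplicit false

namespace Pool.Agent.Y228.GN

open Pool.Agent.H628R4.TP Pool.Agent.W425.MM
open Pool.Agent.W425.ND (spa Nondeg prodb prodb_eval parts)
open Pool.Agent.W426.SM (gord IsRay face)
open Pool.Agent.W425.SV (RelV Kil1)
open Pool.Agent.W425.SG (UnitEq)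
open Pool.Agent.TH216.HD hiding IsRay
open Pool.Agent.TH216.HDNL
open Pool.Agent.TH216.MC (pos_of_ray both)
open Pool.Agent.TH216.MF (RelG KilU KRelJ RecJ krelJ_phi ratR recJ_gen)
open Pool.Agent.TH216.LX (InN)
open Pool.Agent.W428.MOT (sp EMeas Pt Constr ratRing LuMu zetaE InRat)
open Pool.Agent.W375.MG (zetaG Good)
open Pool.Agent.Y231.N4
open Pool.Agent.Y228.ND4
open Pool.Agent.TH216.ND
open Pool.Agent.Y229.CF

variable {r N : ℕ}

/-- **The relation of the vertices and the levels**, for polynomials which are nondegenerate for the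
compact faces and satisfy `HypVL`. -/
theorem levelsN (hr : 0 < r) (v : Fin r → Fin N → ℕ) (hv : Function.Injective v)
    (hv0 : ∀ j, v j ≠ 0) (c : Fin r → ℂ) (hnd : NondegC v c) (V : Finset (Fin r))
    (hV : Spans v V) (hL : HypVL v V) :
    (∀ α, ¬ PW True (spa v c) α → ∃ (θ : Fin V.card → ℤ) (p : Polynomial ℂ),
      RelG (vV v V) (Kil1 (vV v V)) (KilU (vV v V) θ) p ∧ p.eval (α : ℂ) ≠ 0) ∧
    ∀ a : Fin N → ℕ, IsRay v a → 0 < gord v a →
      ¬ PW True (spa v c) (-(((∑ i, a i : ℕ) : ℚ) / gord v a)) →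
      LocVL v V (((∑ i, a i : ℕ) : ℚ) / gord v a) := by
  classical
  have hne : NeZero r := ⟨by omega⟩
  refine ⟨fun α hα => ?_, fun a ha hg hcon => ?_⟩
  · unfold PW at hα
    push Not at hα
    obtain ⟨b, hb1, hb, hroot⟩ := hα
    obtain ⟨K, L, hK⟩ := relV_all v _ hv hv0 hnd b hb
    obtain ⟨θ, hθ⟩ := rel_vV v V hV True (prodb b K * dL L) hK
    refine ⟨θ, prodb b K * dL L, hθ, ?_⟩
    rw [Polynomial.eval_mul, prodb_eval]
    refine mul_ne_zero (Finset.prod_ne_zero_iff.2 fun i _ => ?_) (dL_ne _ _ fun t ht => ?_)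
    · exact_mod_cast hroot (i : ℤ)
    · apply hroot ((t : ℤ) + 1)
      rw [← hb1]
      congr 1
      have h1 : (α : ℂ) = t := ht
      rw [h1]
      push_cast
      ring
  · have hgC : ((gord v a : ℕ) : ℂ) ≠ 0 := by exact_mod_cast hg.ne'
    rcases hL a ha hg with ⟨t, ht⟩ | ⟨a', hg', hN, z, hz⟩ | hloc
    · exfalso
      apply hcon
      intro b hb1 _
      have ht' : ∑ i, a i = gord v a * t := ht
      refine ⟨-(t : ℤ) + 1, ?_⟩
      have h1 : ((-(((∑ i, a i : ℕ) : ℚ) / gord v a) : ℚ) : ℂ) -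
          ((-(t : ℤ) + 1 : ℤ) : ℂ) = -1 := by
        rw [ht']
        push_cast
        field_simp
        ring
      rw [h1, hb1]
    · exfalso
      apply hcon
      intro b hb1 hU
      obtain ⟨K, L, hK⟩ := relV_all v _ hv hv0 hnd b hU
      have h1 := a5 v True (prodb b K * dL L) hK a' hg' hN
      rw [Polynomial.eval_mul, mul_eq_zero] at h1
      have h1 := h1.resolve_right (dL_neg v a' L hg')
      rw [prodb_eval, Finset.prod_eq_zero_iff] at h1
      obtain ⟨i, -, hi⟩ := h1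
      refine ⟨(i : ℤ) - z, ?_⟩
      have h2 : ((∑ i, a i : ℕ) : ℂ) / gord v a = ((∑ i, a' i : ℕ) : ℂ) / gord v a' + z := by
        have := congrArg (fun q : ℚ => (q : ℂ)) hz
        unfold lev at this
        push_cast at this ⊢
        exact this
      have h3 : ((-(((∑ i, a i : ℕ) : ℚ) / gord v a) : ℚ) : ℂ) -
          (((i : ℤ) - z : ℤ) : ℂ) = -(((∑ i, a' i : ℕ) : ℂ) / gord v a') - i := by
        push_cast at h2 ⊢
        rw [h2]
        ring
      rw [h3]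
      exact hi
    · exact hloc

/-- the recurrences at the bad levels -/
theorem hbN (hr : 0 < r) (v : Fin r → Fin N → ℕ) (hv : Function.Injective v)
    (V : Finset (Fin r)) (hV : Spans v V) (P : ℚ → Prop)
    (hP : ∀ α, ¬ P α → ∃ (θ : Fin V.card → ℤ) (p : Polynomial ℂ),
      RelG (vV v V) (Kil1 (vV v V)) (KilU (vV v V) θ) p ∧ p.eval (α : ℂ) ≠ 0)
    (J : Finset (Fin N)) (hG : J ≠ Finset.univ → (∀ j, ∃ i ∈ J, v j i ≠ 0) → SepV v V J)
    (q : ℕ) (hq : 2 ≤ q) (e : Finset (Fin r) → ℂ)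
    (he : KRelJ q v J e) (T0 : ℂ) (hT0 : T0 ≠ 0) (σ : ℚ)
    (hσ : LocVL v V σ ∧ ¬ P (-σ))
    (hlog : Real.log ‖T0‖ / Real.log q = (σ : ℝ)) : RecJ q v e J T0 := by
  classical
  have hLY : LocVY v V ∅ σ := fun j1 hj1 => Or.inl (hσ.1 j1 hj1)
  by_cases hJ : J = Finset.univ
  · exact hb_ndX hr v hv ∅ Finset.univ ⟨fun i hi => absurd hi (Finset.notMem_empty i),
        fun i hi => absurd hi (Finset.notMem_empty i)⟩ V (spansD_univ hV) P hP J
        (by rw [hJ]) q hq e he T0 hT0 σ ⟨hLY, hσ.2⟩ hlog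
  by_cases hvan : ∃ j, ∀ i ∈ J, v j i = 0
  · exact rec_zero hr q hq v e J T0 hvan
  push Not at hvan
  obtain ⟨θ, p, hrel, hp⟩ := hP _ hσ.2
  have hmb : ∀ j, InN (vV v V) Finset.univ (v j) := fun j =>
    inN_vV v V Finset.univ Finset.univ (spansD_univ hV) (Finset.Subset.refl _) j
  have he1 := krelJ_phiV v V J (hG hJ hvan) q e he
  have h1 : ((-Real.log ‖T0‖ / Real.log q : ℝ) : ℂ) = ((-σ : ℚ) : ℂ) := by
    rw [neg_div, hlog]
    push_cast
    rfl
  obtain ⟨Q, hQ, hrec⟩ := Pool.Agent.TH216.ID.recJ_genY q hq (vV v V) ∅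
    ⟨fun i hi => absurd hi (Finset.notMem_empty i), fun i hi => absurd hi (Finset.notMem_empty i)⟩
    p θ hrel J _ he1 T0 hT0 (by rw [h1]; exact hp)
    (by rw [hlog]; exact hypSY_vV hr v V hV ∅ σ hLY)
  refine ⟨Q, hQ, ?_⟩
  filter_upwards [hrec] with t ht
  rw [← ht]
  refine Finset.sum_congr rfl fun m _ => ?_
  rw [aJ_phiV v V J hmb]

/-- the roots -/
theorem rootsN (v : Fin r → Fin N → ℕ) (c : Fin r → ℂ) (V : Finset (Fin r))
    (hloc : ∀ b : Polynomial ℂ, IsLocalBFunction (spa v c) b →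
      b.eval (-1) = 0 ∧ UnitEq True (spa v c) b)
    (hL : ∀ a : Fin N → ℕ, IsRay v a → 0 < gord v a →
      ¬ PW True (spa v c) (-(((∑ i, a i : ℕ) : ℚ) / gord v a)) →
      LocVL v V (((∑ i, a i : ℕ) : ℚ) / gord v a))
    (p : ℤ × ℤ) (hp : p = (-1, 1) ∨ ∃ a : Fin N → ℕ, IsRay v a ∧ 0 < gord v a ∧
        ¬ (LocVL v V (((∑ i, a i : ℕ) : ℚ) / gord v a) ∧
          ¬ PW True (spa v c) (-(((∑ i, a i : ℕ) : ℚ) / gord v a))) ∧
        p = (-((∑ i, a i : ℕ) : ℤ), (gord v a : ℤ))) :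
    p.1 < 0 ∧ 0 < p.2 ∧ ∀ b : Polynomial ℂ, IsLocalBFunction (spa v c) b →
      ∃ i : ℤ, b.eval ((p.1 : ℂ) / p.2 - i) = 0 := by
  rcases hp with rfl | ⟨a, ha, hg, hn, rfl⟩
  · refine ⟨by norm_num, by norm_num, fun b hb => ⟨0, ?_⟩⟩
    have h1 : (((-1 : ℤ) : ℂ) / ((1 : ℤ) : ℂ) - ((0 : ℤ) : ℂ)) = -1 := by
      push_cast
      ring
    rw [h1, (hloc b hb).1]
  refine ⟨pos_of_ray ha, Int.natCast_pos.2 hg, fun b hb => ?_⟩
  have hPW : PW True (spa v c) (-(((∑ i, a i : ℕ) : ℚ) / gord v a)) := by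
    by_contra hcon
    exact hn ⟨hL a ha hg hcon, hcon⟩
  obtain ⟨i, hi⟩ := hPW b (hloc b hb).1 (hloc b hb).2
  refine ⟨i, ?_⟩
  have e : ((-((∑ i, a i : ℕ) : ℤ) : ℤ) : ℂ) / ((gord v a : ℤ) : ℂ) =
      ((-(((∑ i, a i : ℕ) : ℚ) / gord v a) : ℚ) : ℂ) := by
    push_cast
    ring
  rw [e]
  exact hi

/-- The condition on the exponents outside `V`: for every coordinate subspace `{x_i = 0, i ∈ J}`,
except the origin, on which `f` vanishes, no exponent `v l`, `l ∉ V`, has the same coordinates in `J`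
as a `v j`, `j ∈ V`, with a coordinate `1` in `J`. -/
def GlobW (v : Fin r → Fin N → ℕ) (V : Finset (Fin r)) : Prop :=
  ∀ J : Finset (Fin N), J ≠ Finset.univ → (∀ j, ∃ i ∈ J, v j i ≠ 0) →
    ∀ j ∈ V, ∀ l, l ∉ V → (∃ i ∈ J, v j i = 1) → ∃ i ∈ J, v l i ≠ v j i

/-- **At the origin, nondegenerate for the compact faces.** -/
theorem nvC {k : Type} [Field k] [Algebra k ℂ] (hr : 0 < r)
    (v : Fin r → Fin N → ℕ) (hv : Function.Injective v) (hv0 : ∀ j, v j ≠ 0) (c : Fin r → k)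
    (hc : ∀ j, c j ≠ 0) (hnd : NondegC v (fun j => algebraMap k ℂ (c j)))
    (V : Finset (Fin r)) (hV : Spans v V) (hL : HypVL v V) :
    ∃ S : Finset (ℤ × ℤ),
      (∀ p ∈ S, p.1 < 0 ∧ 0 < p.2 ∧ ∀ b : Polynomial ℂ,
        IsLocalBFunction (spa v (fun j => algebraMap k ℂ (c j))) b →
          ∃ i : ℤ, b.eval ((p.1 : ℂ) / p.2 - i) = 0) ∧
      (∀ f : MvPolynomial (Fin N) k, spa v c = f →
        ∀ (R : Type) [CommRing R] (y : Rˣ) (M : EMeas f R), M.L = (y : R) →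
        OrigM M → serM M y ∈ ratR y (S : Set (ℤ × ℤ))) := by
  classical
  have hkc : CharZero k := RingHom.charZero (algebraMap k ℂ)
  obtain ⟨hP, hLL⟩ := levelsN hr v hv hv0 _ hnd V hV hL
  obtain ⟨S, hS, hz⟩ := finNc v hr (fun σ => LocVL v V σ ∧
      ¬ PW True (spa v (fun j => algebraMap k ℂ (c j))) (-σ))
    (fun q hq e he T0 hT0 σ hσ hlog => hbN hr v hv V hV _ hP Finset.univ
      (fun h => absurd rfl h) q hq e he T0 hT0 σ hσ hlog)
  have hspa : ∀ {K : Type} [Field K] (c' : Fin r → K), spa v c' = sp 0 v c' 1 := by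
    intro K _ c'
    unfold sp spa
    simp
  refine ⟨S, fun p hp => rootsN v _ V (fun b hb => of_local' v (by omega) _ hv hv0 hnd b hb) hLL p
    (hS p hp), fun f hf R _ y M hML hO => ?_⟩
  rw [hspa] at hf
  subst hf
  have h1 := nonG_of' k k v c hr hnd
  simp only [Algebra.algebraMap_self, RingHom.id_apply] at h1
  exact hz k c (fun u hu => h1 u fun i hi => (hu i).2 hi) hc R y M hML hO

/-- **All points, nondegenerate for all the faces.** -/
theorem nvG {k : Type} [Field k] [Algebra k ℂ] (hr : 0 < r)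
    (v : Fin r → Fin N → ℕ) (hv : Function.Injective v) (hv0 : ∀ j, v j ≠ 0) (c : Fin r → k)
    (hc : ∀ j, c j ≠ 0) (hnd : NondegP v (fun j => algebraMap k ℂ (c j)))
    (V : Finset (Fin r)) (hV : Spans v V) (hL : HypVL v V) (hG : GlobW v V) :
    ∃ S : Finset (ℤ × ℤ),
      (∀ p ∈ S, p.1 < 0 ∧ 0 < p.2 ∧ ∀ b : Polynomial ℂ,
        IsLocalBFunction (spa v (fun j => algebraMap k ℂ (c j))) b →
          ∃ i : ℤ, b.eval ((p.1 : ℂ) / p.2 - i) = 0) ∧
      (∀ (K : Type) [Field K] [Algebra k K] (W : Set (Pt K (Fin N)))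
        (E : Set (AlgebraicClosure K)), Constr W → Good E →
        zetaG (spa v (fun j => algebraMap k K (c j))) W E ∈ ratRing K S) ∧
      InRat (LuMu (spa v c)) S (zetaE (spa v c)) := by
  classical
  have hkc : CharZero k := RingHom.charZero (algebraMap k ℂ)
  obtain ⟨hP, hLL⟩ := levelsN hr v hv hv0 _ hnd.compact V hV hL
  obtain ⟨S, hS, hz1, hz2⟩ := both v hr (fun σ => LocVL v V σ ∧
      ¬ PW True (spa v (fun j => algebraMap k ℂ (c j))) (-σ))
    (fun J q hq e he T0 hT0 σ hσ hlog => hbN hr v hv V hV _ hP J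
      (fun hJ hvan j hj i hi hj1 l hl => hG J hJ hvan j hj l hl ⟨i, hi, hj1⟩)
      q hq e he T0 hT0 σ hσ hlog)
  have hspa : ∀ {K : Type} [Field K] (c' : Fin r → K), spa v c' = sp 0 v c' 1 := by
    intro K _ c'
    unfold sp spa
    simp
  refine ⟨S, fun p hp => rootsN v _ V
    (fun b hb => of_local' v (by omega) _ hv hv0 hnd.compact b hb) hLL p (hS p hp),
    fun K _ _ W E hW hE => ?_, ?_⟩
  · have hK : CharZero K := charZero_of_injective_algebraMap (algebraMap k K).injective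
    rw [hspa]
    exact hz1 K _ (nonG_P k K v c hr hnd) (fun j => (map_ne_zero _).2 (hc j)) W E hW hE
  · rw [hspa]
    have h1 := nonG_P k k v c hr hnd
    simp only [Algebra.algebraMap_self, RingHom.id_apply] at h1
    exact hz2 k c h1 hc

end Pool.Agent.Y228.GN
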