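import Pool.Agent.W425.MM.EMot
import Pool.Agent.TH216.MF.MotI
import Pool.Agent.Y229.CF.Mot
import Pool.Agent.Y231.N4.M5

/-!
# The equivariant classes of the strata, nondegeneracy for the weights which occur
-/

set_option autoImplicit false

namespace Pool.Agent.Y228.GN

open MvPolynomial
open Pool.Agent.W428.MOT Pool.Agent.W749.MT Pool.Agent.W749.ME
open Pool.Agent.W426.SM (gord ford IsRay face)
open Pool.Agent.W425.MM Pool.Agent.W425.MM.EMot

section
open Pool.Agent.W749.ME.EStC Pool.Agent.W749.MT.StC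

/-- nondegeneracy for the weight `u` -/
def NonU {K : Type} [Field K] {n r : ℕ} (m : Fin r → Fin n → ℕ) (c : Fin r → K)
    (u : Fin n → ℕ) : Prop :=
  ∀ z : Fin n → AlgebraicClosure K,
    (∀ i, (∃ j ∈ amin m u, m j i ≠ 0) → z i ≠ 0) → gbar m (cb c) (amin m u) z = 0 →
    ∃ i, dgbar m (cb c) (amin m u) i z ≠ 0

theorem eStCc (h1 : S_EFree) (h2 : S_ESub) (h3 : S_Tay) {K : Type} [Field K] [CharZero K]
    {n r : ℕ} (A : Fin n → ℕ) (m : Fin r → Fin n → ℕ)
    (c : Fin r → K) (e : ℕ) {R : Type} [CommRing R] (M : EMeas (sp A m c e) R)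
    (hr : 0 < r) (he : 0 < e) (J : Finset (Fin n)) (N : ℕ) (hN : 1 ≤ N)
    (u : Fin n → ℕ) (hA : Adm J u) (hNon : NonU m c u)
    (hu : ∀ i, u i ≤ N + 1) (l : ℕ) (hl : 1 ≤ l) (hf : ford A m e u + e * l = N) :
    M.χ _ (Y0E K N u ∩ {y |
        (∀ k < l, PowerSeries.coeff k (gser m (cb c) (del m u) (arc y)) = 0) ∧
        (∏ i, y (i, 0) ^ A i) *
          (PowerSeries.coeff l (gser m (cb c) (del m u) (arc y))) ^ e = 1})
        (yw (2 * N + 1) u) N (yb (2 * N + 1) u) * M.L ^ l =
      M.χ _ (EB1 A m c e J (amin m u)) (bw1 A m J (amin m u) u l) N (bb1 J) *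
        (M.L - 1) ^ ((free A m J (amin m u)).filter fun i => u i ≤ N).card *
        M.L ^ ((free A m J (amin m u)).filter fun i => ¬ u i ≤ N).card *
        M.L ^ (∑ i, (2 * N + 1 - u i)) := by
  classical
  have hN0 : 0 < N := hN
  have hJ : ∀ i, i ∈ J ↔ u i ≠ 0 := fun i => (hA i).symm
  set τ := amin m u with hτ
  set δ := del m u with hδ
  have hτne : τ.Nonempty := amin_nonempty m u hr
  have hlN : l ≤ N := by
    have : l ≤ e * l := Nat.le_mul_of_pos_left _ he
    omega
  have hfN : ford A m e u ≤ N := by omega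
  have ht00 : ∀ t : AlgebraicClosure K, t ^ N = 1 → t ≠ 0 := by
    rintro t ht rfl
    rw [zero_pow hN0.ne'] at ht
    exact zero_ne_one ht
  set W : Set (Pt K (Fin n × Fin (2 * N + 1 + 1))) :=
    {y | (∀ k < l, PowerSeries.coeff k (gser m (cb c) δ (arc y)) = 0) ∧
        (∏ i, y (i, 0) ^ A i) *
          (PowerSeries.coeff l (gser m (cb c) δ (arc y))) ^ e = 1} with hW
  have hWC : ∀ i0, W = CC A m c e δ l i0 l := by
    intro i0
    have hv : ∀ (y : Pt K (Fin n × Fin (2 * N + 1 + 1))) (k : ℕ), k ≤ l →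
        vv m c δ i0 l y k = PowerSeries.coeff k (gser m (cb c) δ (arc y)) := fun y k hk =>
      if_pos hk
    ext y
    constructor
    · rintro ⟨h5, h6⟩
      refine ⟨fun k hk => ?_, ?_⟩
      · rw [hv y k hk.le]
        exact h5 k hk
      · rw [hv y l le_rfl]
        exact h6
    · rintro ⟨h5, h6⟩
      refine ⟨fun k hk => ?_, ?_⟩
      · rw [← hv y k hk.le]
        exact h5 k hk
      · rw [← hv y l le_rfl]
        exact h6
  have hWc : Constr W := by
    refine Constr.and ?_ ?_
    · exact Constr.allLt l fun k _ => Constr.eqz (IsPA_gser m c δ k)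
    · exact Constr.eq ((IsPF_prod A fun i => (i, 0)).mul ((IsPA_gser m c δ l).pow e)) IsPF.one
  have hVW : Valid (sp A m c e) (Y0E K N u ∩ W) (yw (2 * N + 1) u) N (yb (2 * N + 1) u) := by
    refine ⟨?_, hN0, ?_, ?_, ?_⟩
    · refine Constr.inter ?_ hWc
      refine Constr.and ?_ ?_
      · refine Constr.all fun i => Constr.all fun j => Constr.imp' fun _ => ?_
        exact Constr.eqz (IsPF.coord _)
      · refine Constr.all fun i => Constr.imp' fun _ => ?_
        exact Constr.ne (IsPF.coord _) IsPF.zero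
    · rintro t ht z ⟨⟨hz1, hz2⟩, hz3, hz4⟩
      have ht0 := ht00 t ht
      refine ⟨⟨fun i j hj => ?_, fun i hi => ?_⟩, fun k hk => ?_, ?_⟩
      · show t ^ _ * z (i, j) = 0
        rw [hz1 i j hj, mul_zero]
      · exact mul_ne_zero (zpow_ne_zero _ ht0) (hz2 i hi)
      · rw [hδ, coeff_gser_dact u m c t ht0 z k, hz3 k hk, mul_zero]
      · rw [hδ, coeff_gser_dact u m c t ht0 z l]
        simp only [dact_yw_zero]
        rw [prod_smul t u (fun i => (u i : ℤ)) A (fun i => z (i, 0)) fun _ _ => rfl]
        exact final_eq m e u N l hf t ht _ _ hz4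
    · rintro z ⟨_, hz3, _⟩
      refine base_gbar A m c e he u _ (fun i => z (i, 0)) ?_ ?_ ?_
      · intro i hi
        unfold cbase yb
        rw [if_neg hi]
        rfl
      · intro i hi
        unfold cbase yb
        rw [if_pos hi]
        rfl
      · have h5 := hz3 0 hl
        rw [(h3 m (cb c) δ (arc z)).1, hδ, filter_del] at h5
        simp only [constantCoeff_arc] at h5
        exact h5
    · intro i j h
      unfold yb at h
      split_ifs at h with h0
      rw [← Option.some.inj h]
      show (u i : ℤ) + (((0 : Fin (2 * N + 1 + 1)) : ℕ) : ℤ) = 0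
      rw [h0]
      rfl
  have hst1 : ∀ i0, ∀ t : AlgebraicClosure K, t ^ N = 1 →
      ∀ z ∈ QQ m c τ (fun i => (i, (0 : Fin (2 * N + 1 + 1)))) i0,
      dact (yw (2 * N + 1) u) t z ∈ QQ m c τ (fun i => (i, (0 : Fin (2 * N + 1 + 1)))) i0 := by
    intro i0 t ht z hz
    refine QQ_stable m c u _ i0 _ (fun i _ => ?_) t (ht00 t ht) z hz
    show (u i : ℤ) + (((0 : Fin (2 * N + 1 + 1)) : ℕ) : ℤ) = u i
    have h0 : (((0 : Fin (2 * N + 1 + 1)) : ℕ) : ℤ) = 0 := rfl
    rw [h0, add_zero]
  have hVB := valid_B1 A m c e he J N hN0 u hA l hf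
  have e1 : M.χ _ (Y0E K N u ∩ W) (yw (2 * N + 1) u) N (yb (2 * N + 1) u) =
      ∑ i0, M.χ _ ((Y0E K N u ∩ W) ∩
        QQ m c τ (fun i => (i, (0 : Fin (2 * N + 1 + 1)))) i0)
        (yw (2 * N + 1) u) N (yb (2 * N + 1) u) := by
    refine χE_cover M _ _ _ _ _ hVW (fun i0 => constr_QQ m c τ _ i0) hst1
      (fun a b h => QQ_disjoint m c τ _ a b h) ?_
    rintro y ⟨⟨hy1, hy2⟩, hy4, hy5⟩
    refine QQ_cover m c τ _ y ?_
    refine hNon (fun i => y (i, 0)) ?_ ?_
    · rintro i ⟨j, hj, hm⟩
      refine hy2 i (le_of_not_free A m e J u N he hA hfN i ?_)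
      intro hcf
      exact hm (((mem_free A m J τ i).1 hcf).2.2 j hj)
    · have := hy4 0 hl
      rw [(h3 m (cb c) δ (arc y)).1, hδ, filter_del] at this
      simp only [constantCoeff_arc] at this
      exact this
  have e2 : M.χ _ (EB1 A m c e J τ) (bw1 A m J τ u l) N (bb1 J) =
      ∑ i0, M.χ _ (EB1 A m c e J τ ∩ QQ m c τ some i0) (bw1 A m J τ u l) N (bb1 J) := by
    refine χE_cover M _ _ _ _ _ hVB (fun i0 => constr_QQ m c τ _ i0)
      (fun i0 t ht z hz => QQ_some_stable A m c J N hN0 u l i0 t ht z hz)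
      (fun a b h => QQ_disjoint m c τ _ a b h) ?_
    rintro z ⟨hz1, hz3, hz4, hz5⟩
    refine QQ_cover m c τ _ z ?_
    exact hNon (fun i => z (some i)) (fun i _ => hz1 i) hz4
  rw [e1, e2, Finset.sum_mul, Finset.sum_mul, Finset.sum_mul, Finset.sum_mul]
  refine Finset.sum_congr rfl fun i0 _ => ?_
  by_cases hi0 : i0 ∈ free A m J τ
  · have hd : ∀ z : Fin n → AlgebraicClosure K, dgbar m (cb c) τ i0 z = 0 := fun z =>
      dgbar_zero m (cb c) τ i0 z ((mem_free A m J τ i0).1 hi0).2.2
    have h5 : (Y0E K N u ∩ W) ∩ QQ m c τ (fun i => (i, (0 : Fin (2 * N + 1 + 1)))) i0 = ∅ := by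
      rw [Set.eq_empty_iff_forall_notMem]
      rintro y ⟨_, _, h6⟩
      exact h6 (hd _)
    have h6 : EB1 A m c e J τ ∩ QQ m c τ some i0 = ∅ := by
      rw [Set.eq_empty_iff_forall_notMem]
      rintro y ⟨_, _, h6⟩
      exact h6 (hd _)
    rw [h5, h6, χE_empty M _ _ _ hN0 hVW.inv, χE_empty M _ _ _ hN0 hVB.inv]
    ring
  · have hui : u i0 ≤ N := le_of_not_free A m e J u N he hA hfN i0 hi0
    have hl2 : l ≤ 2 * N + 1 - u i0 := by omega
    rw [← base h1 h3 A m c e M J he N hN0 u hA l hf hl i0 hi0 hl2,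
      ← steps h2 h3 A m c e M he N hN0 u l hf i0 hl2 l le_rfl, ← hWC i0, ws_self]
    congr 2
    rw [Set.inter_assoc, Set.inter_comm W]

end

section
open Pool.Agent.W605.MEInd
theorem eInd (h1 : S_ETw) : S_EInd1 := by
  intro k _ _ n r A m c e R _ M he J τ
  have : Inhabited R := ⟨0⟩
  obtain ⟨b0, hb0⟩ := exists_const (fun u : Fin n → ℕ => Adm J u ∧ amin m u = τ ∧
      0 < ford A m e u)
    (fun u => M.χ _ (EB0 A m c e J τ) (bw A m J τ u) (ford A m e u) (bb J)) (by
      rintro u u' ⟨hJ, hu, hf⟩ ⟨hJ', hu', hf'⟩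
      refine h1 M (EB0 A m c e J τ) _ _ _ _ (bb J) (valid0 A m c e he J τ u hJ hu hf)
        (valid0 A m c e he J τ u' hJ' hu' hf') (fun z hz i _ => hz.1 i) (fun s hs z hz => ?_)
      refine stable0 A m c e J τ _ s hs
        ((ford A m e u' : ℤ) * ((∑ i, u i * A i : ℕ) : ℤ) -
          (ford A m e u : ℤ) * ((∑ i, u' i * A i : ℕ) : ℤ))
        ((ford A m e u' : ℤ) * (gord m u : ℤ) - (ford A m e u : ℤ) * (gord m u' : ℤ))
        (fun i hi => ?_) ?_ (fun j hj => ?_) ?_ z hz
      · simp only [bw_free A m J τ u i hi, bw_free A m J τ u' i hi, mul_zero, sub_zero]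
      · rw [← bw_A A m J τ u, ← bw_A A m J τ u', Finset.mul_sum, Finset.mul_sum,
          ← Finset.sum_sub_distrib]
        refine Finset.sum_congr rfl fun i _ => ?_
        ring
      · rw [← bw_m A m J τ u hu j hj, ← bw_m A m J τ u' hu' j hj, Finset.mul_sum,
          Finset.mul_sum, ← Finset.sum_sub_distrib]
        refine Finset.sum_congr rfl fun i _ => ?_
        ring
      · convert zpow_zero s using 2
        unfold ford
        push_cast
        ring)
  obtain ⟨b1, hb1⟩ := exists_const (fun p : (Fin n → ℕ) × ℕ => Adm J p.1 ∧ amin m p.1 = τ ∧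
      1 ≤ p.2)
    (fun p => M.χ _ (EB1 A m c e J τ) (bw1 A m J τ p.1 p.2) (ford A m e p.1 + e * p.2)
      (bb1 J)) (by
      rintro ⟨u, l⟩ ⟨u', l'⟩ ⟨hJ, hu, hl⟩ ⟨hJ', hu', hl'⟩
      simp only at hJ hu hl hJ' hu' hl' ⊢
      refine h1 M (EB1 A m c e J τ) _ _ _ _ (bb1 J) (valid1 A m c e he J τ u hJ hu l hl)
        (valid1 A m c e he J τ u' hJ' hu' l' hl') (fun z hz i _ => ?_) (fun s hs z hz => ?_)
      · cases i with
        | none =>
          intro h0
          have h2 := hz.2.2.2
          rw [h0, zero_pow he.ne', mul_zero] at h2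
          exact zero_ne_one h2
        | some i => exact hz.1 i
      refine stable1 A m c e J τ _ s hs
        (((ford A m e u' + e * l' : ℕ) : ℤ) * ((∑ i, u i * A i : ℕ) : ℤ) -
          ((ford A m e u + e * l : ℕ) : ℤ) * ((∑ i, u' i * A i : ℕ) : ℤ))
        (((ford A m e u' + e * l' : ℕ) : ℤ) * (gord m u : ℤ) -
          ((ford A m e u + e * l : ℕ) : ℤ) * (gord m u' : ℤ))
        (fun i hi => ?_) ?_ (fun j hj => ?_) ?_ z hz
      · simp only [bw1, bw_free A m J τ u i hi, bw_free A m J τ u' i hi, mul_zero, sub_zero]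
      · rw [← bw_A A m J τ u, ← bw_A A m J τ u', Finset.mul_sum, Finset.mul_sum,
          ← Finset.sum_sub_distrib]
        refine Finset.sum_congr rfl fun i _ => ?_
        simp only [bw1]
        ring
      · rw [← bw_m A m J τ u hu j hj, ← bw_m A m J τ u' hu' j hj, Finset.mul_sum,
          Finset.mul_sum, ← Finset.sum_sub_distrib]
        refine Finset.sum_congr rfl fun i _ => ?_
        simp only [bw1]
        ring
      · convert zpow_zero s using 2
        unfold ford bw1
        push_cast
        ring)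
  exact ⟨b0, b1, fun u hJ hu => ⟨fun hf => hb0 u ⟨hJ, hu, hf⟩,
    fun l hl => hb1 (u, l) ⟨hJ, hu, hl⟩⟩⟩


end

open Pool.Agent.W426.SM (gord ford IsRay face)
open Pool.Agent.W375.MT
open Pool.Agent.Y231.N4 (OrigM)

theorem eSumPc (h1 : S_EJet) (h2 : S_EShift) (h3 : S_ECond) (h4 : S_EStB1)
    (hFree : S_EFree) (hSub : S_ESub) (hTay : S_Tay)
    {k : Type} [Field k] [CharZero k] {n r : ℕ} (A : Fin n → ℕ) (m : Fin r → Fin n → ℕ)
    (c : Fin r → k) (e : ℕ) {R : Type} [CommRing R] (M : EMeas (sp A m c e) R)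
    (hNon : ∀ u, Adm Finset.univ u → NonU m c u) (hO : OrigM M) (hr : 0 < r) (he : 0 < e) (Y : R) (hY : M.L * Y = 1)
    (b0 b1 : Finset (Fin n) → Finset (Fin r) → R)
    (hb : ∀ (J : Finset (Fin n)) (τ : Finset (Fin r)) (u : Fin n → ℕ), Adm J u → amin m u = τ →
      (0 < ford A m e u →
        M.χ _ (EB0 A m c e J τ) (bw A m J τ u) (ford A m e u) (bb J) = b0 J τ) ∧
      ∀ l, 1 ≤ l →
        M.χ _ (EB1 A m c e J τ) (bw1 A m J τ u l) (ford A m e u + e * l) (bb1 J) = b1 J τ)
    (hb0 : ∀ J, J ≠ Finset.univ → ∀ τ, b0 J τ = 0 ∧ b1 J τ = 0)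
    (N : ℕ) (hN : 1 ≤ N) :
    M.χ _ (JetE (sp A m c e) N) (jw n N) N (jb n N) * Y ^ (n * N) =
      ∑ J : Finset (Fin n), ∑ τ : Finset (Fin r), M.L ^ (free A m J τ).card *
        (b0 J τ * Polynomial.eval₂ (Int.castRingHom R) Y (cp A m e J τ N N) +
          ∑ l ∈ Finset.Icc 1 N, if e * l ≤ N then
            b1 J τ * Y ^ l *
              Polynomial.eval₂ (Int.castRingHom R) Y (cp A m e J τ N (N - e * l)) else 0) := by
  classical
  set P := (Fintype.piFinset fun _ : Fin n => Finset.range (N + 2)) with hP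
  have key : ∀ J : Finset (Fin n), ∀ u ∈ P.filter (Adm J),
      M.χ (Fin n × Fin (2 * N + 1 + 1)) (stratE (sp A m c e) N u) (jw n (2 * N + 1)) N
        (jb n (2 * N + 1)) * Y ^ (n * (2 * N + 1)) =
      M.L ^ (free A m J (amin m u)).card * (b0 J (amin m u) *
        (if ford A m e u = N then
          Polynomial.eval₂ (Int.castRingHom R) Y (wt A m J (amin m u) N u) else 0) +
        ∑ l ∈ Finset.Icc 1 N, if e * l ≤ N then
          b1 J (amin m u) * Y ^ l *
            (if ford A m e u = N - e * l then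
              Polynomial.eval₂ (Int.castRingHom R) Y (wt A m J (amin m u) N u) else 0)
          else 0) := by
    intro J u hu
    rw [Finset.mem_filter, Fintype.mem_piFinset] at hu
    obtain ⟨hu1, hA⟩ := hu
    have hu' : ∀ i, u i ≤ N + 1 := by
      intro i
      have := Finset.mem_range.1 (hu1 i)
      omega
    by_cases hJU : J = Finset.univ
    swap
    · obtain ⟨i, hi⟩ : ∃ i, i ∉ J := by
        by_contra hcon
        push Not at hcon
        exact hJU (Finset.eq_univ_iff_forall.2 hcon)
      have hui : u i = 0 := by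
        by_contra h
        exact hi ((hA i).1 h)
      have hz : M.χ (Fin n × Fin (2 * N + 1 + 1)) (stratE (sp A m c e) N u) (jw n (2 * N + 1)) N
          (jb n (2 * N + 1)) = 0 := by
        refine hO _ _ _ _ _ (Pool.Agent.W375.MT.stratE_valid _ N hN u) fun z hz h0 => ?_
        have h5 := (hz.1 i).2 (by rw [hui]; exact Nat.zero_le _)
        apply h5
        rw [hui]
        have h6 := congrFun h0 i
        have h7 : cbase (jb n (2 * N + 1)) z i = z (i, 0) := rfl
        rw [h7] at h6
        have h8 : PowerSeries.coeff 0 (arc z i) = z (i, 0) := by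
          rw [PowerSeries.coeff_zero_eq_constantCoeff_apply]
          exact Pool.Agent.W375.MT.constantCoeff_arc z i
        rw [h8]
        exact h6
      rw [hz, zero_mul, (hb0 J hJU _).1, (hb0 J hJU _).2, zero_mul, zero_add,
        Finset.sum_eq_zero fun l _ => ?_, mul_zero]
      split_ifs
      · ring
      · ring
      · rfl
    rw [h2 M N hN u hu']
    have hV := yE_valid (sp A m c e) N hN u
    have hset : (Y0E k N u ∩ {y | ∀ j ≤ N, PowerSeries.coeff j
        (aeval (fun i => PowerSeries.X ^ u i * arc y i) (sp A m c e)) =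
          if j = N then 1 else 0}) =
        Y0E k N u ∩ {y | ∃ l, ford A m e u + e * l = N ∧
          (∀ k < l, PowerSeries.coeff k (gser m (cb c) (del m u) (arc y)) = 0) ∧
          (∏ i, y (i, 0) ^ A i) *
            (PowerSeries.coeff l (gser m (cb c) (del m u) (arc y))) ^ e = 1} := by
      ext y
      simp only [Set.mem_inter_iff, Set.mem_ofPred_eq]
      constructor
      · rintro ⟨ha, hb⟩
        exact ⟨ha, (h3 A m c e hr he N hN u hu' y ha).1 hb⟩
      · rintro ⟨ha, hb⟩
        exact ⟨ha, (h3 A m c e hr he N hN u hu' y ha).2 hb⟩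
    rw [hset]
    rw [hset] at hV
    have hw := weight_eq A m J (amin m u) N u hu' M.L Y hY
    by_cases hex : ∃ l, ford A m e u + e * l = N
    · obtain ⟨l, hl⟩ := hex
      have huniq : ∀ l', ford A m e u + e * l' = N → l' = l := by
        intro l' hl'
        have : e * l' = e * l := by omega
        exact Nat.eq_of_mul_eq_mul_left he this
      have hset2 : (Y0E k N u ∩ {y | ∃ l, ford A m e u + e * l = N ∧
          (∀ k < l, PowerSeries.coeff k (gser m (cb c) (del m u) (arc y)) = 0) ∧
          (∏ i, y (i, 0) ^ A i) *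
            (PowerSeries.coeff l (gser m (cb c) (del m u) (arc y))) ^ e = 1}) =
          Y0E k N u ∩ {y | (∀ k < l, PowerSeries.coeff k (gser m (cb c) (del m u) (arc y)) = 0) ∧
          (∏ i, y (i, 0) ^ A i) *
            (PowerSeries.coeff l (gser m (cb c) (del m u) (arc y))) ^ e = 1} := by
        ext y
        simp only [Set.mem_inter_iff, Set.mem_ofPred_eq]
        constructor
        · rintro ⟨ha, l', hl', hb⟩
          rw [huniq l' hl'] at hb
          exact ⟨ha, hb⟩
        · rintro ⟨ha, hb⟩
          exact ⟨ha, l, hl, hb⟩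
      rw [hset2]
      rcases Nat.eq_zero_or_pos l with rfl | hlpos
      · have hN' : ford A m e u = N := by omega
        have h6 := h4 A m c e M hr he J N hN u hA hu' hN'
        simp only [Nat.not_lt_zero, false_implies, implies_true, true_and]
        have h7 := (hb J (amin m u) u hA rfl).1 (by omega)
        rw [hN'] at h7
        rw [h6, h7, if_pos hN']
        have hz : (∑ l ∈ Finset.Icc 1 N, if e * l ≤ N then
          b1 J (amin m u) * Y ^ l *
            (if ford A m e u = N - e * l then
              Polynomial.eval₂ (Int.castRingHom R) Y (wt A m J (amin m u) N u) else 0)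
          else 0) = 0 := by
          refine Finset.sum_eq_zero fun l hl1 => ?_
          rw [Finset.mem_Icc] at hl1
          have hel : 0 < e * l := Nat.mul_pos he (by omega)
          split_ifs with h7 h8
          · exfalso
            omega
          · rw [mul_zero]
          · rfl
        rw [hz, add_zero]
        linear_combination (b0 J (amin m u)) * hw
      · have h6 := eStCc hFree hSub hTay A m c e M hr he J N hN u hA (hNon u (hJU ▸ hA)) hu' l
          hlpos hl
        have h7 := (hb J (amin m u) u hA rfl).2 l hlpos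
        rw [hl] at h7
        rw [h7] at h6
        have hel : 0 < e * l := Nat.mul_pos he hlpos
        have hlN : l ≤ N := le_trans (Nat.le_mul_of_pos_left l he) (by omega)
        rw [if_neg (by omega), mul_zero, zero_add]
        have hz : (∑ l ∈ Finset.Icc 1 N, if e * l ≤ N then
          b1 J (amin m u) * Y ^ l *
            (if ford A m e u = N - e * l then
              Polynomial.eval₂ (Int.castRingHom R) Y (wt A m J (amin m u) N u) else 0)
          else 0) = b1 J (amin m u) * Y ^ l *
              Polynomial.eval₂ (Int.castRingHom R) Y (wt A m J (amin m u) N u) := by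
          rw [Finset.sum_eq_single l]
          · rw [if_pos (by omega), if_pos (by omega)]
          · intro l' _ hne
            split_ifs with h7 h8
            · exact absurd (huniq l' (by omega)) hne
            · rw [mul_zero]
            · rfl
          · intro h9
            exact absurd (Finset.mem_Icc.2 ⟨hlpos, hlN⟩) h9
        rw [hz]
        have h10 : M.L ^ l * Y ^ l = 1 := by rw [← mul_pow, hY, one_pow]
        have h11 : M.χ _ (Y0E k N u ∩ {y |
            (∀ k < l, PowerSeries.coeff k (gser m (cb c) (del m u) (arc y)) = 0) ∧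
            (∏ i, y (i, 0) ^ A i) *
              (PowerSeries.coeff l (gser m (cb c) (del m u) (arc y))) ^ e = 1})
              (yw (2 * N + 1) u) N (yb (2 * N + 1) u) =
            (b1 J (amin m u) *
            (M.L - 1) ^ ((free A m J (amin m u)).filter fun i => u i ≤ N).card *
            M.L ^ ((free A m J (amin m u)).filter fun i => ¬ u i ≤ N).card *
            M.L ^ (∑ i, (2 * N + 1 - u i))) * Y ^ l := by
          rw [← h6, mul_assoc, h10, mul_one]
        rw [h11]
        linear_combination (b1 J (amin m u) * Y ^ l) * hw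
    · have hset2 : (Y0E k N u ∩ {y | ∃ l, ford A m e u + e * l = N ∧
          (∀ k < l, PowerSeries.coeff k (gser m (cb c) (del m u) (arc y)) = 0) ∧
          (∏ i, y (i, 0) ^ A i) *
            (PowerSeries.coeff l (gser m (cb c) (del m u) (arc y))) ^ e = 1}) = ∅ := by
        ext y
        simp only [Set.mem_inter_iff, Set.mem_ofPred_eq, Set.mem_empty_iff_false, iff_false]
        rintro ⟨-, l, hl, -⟩
        exact hex ⟨l, hl⟩
      rw [hset2, echi_empty M hV, zero_mul, if_neg (fun h => hex ⟨0, by simpa using h⟩), mul_zero,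
        zero_add]
      have hz : (∑ l ∈ Finset.Icc 1 N, if e * l ≤ N then
        b1 J (amin m u) * Y ^ l *
          (if ford A m e u = N - e * l then
            Polynomial.eval₂ (Int.castRingHom R) Y (wt A m J (amin m u) N u) else 0)
        else 0) = 0 := by
        refine Finset.sum_eq_zero fun l _ => ?_
        split_ifs with h7 h8
        · exact absurd ⟨l, by omega⟩ hex
        · rw [mul_zero]
        · rfl
      rw [hz, mul_zero]
  have hJet := h1 M N hN
  have e1 : M.χ _ (JetE (sp A m c e) N) (jw n N) N (jb n N) * Y ^ (n * N) =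
      (M.χ (Fin n × Fin (N + 1)) (JetE (sp A m c e) N) (jw n N) N (jb n N) *
        M.L ^ (n * (N + 1))) * Y ^ (n * (2 * N + 1)) := by
    have h12 : M.L ^ (n * (N + 1)) * Y ^ (n * (2 * N + 1)) = Y ^ (n * N) := by
      have h13 : n * (2 * N + 1) = n * (N + 1) + n * N := by ring
      rw [h13, pow_add, ← mul_assoc, ← mul_pow, hY, one_pow, one_mul]
    rw [mul_assoc, h12]
  rw [e1, hJet, Finset.sum_mul]
  rw [← Finset.sum_fiberwise P (fun u => (Finset.univ.filter fun i => u i ≠ 0 : Finset (Fin n)))]
  refine Finset.sum_congr rfl fun J _ => ?_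
  have hfil : P.filter (fun u => (Finset.univ.filter fun i => u i ≠ 0 : Finset (Fin n)) = J) =
      P.filter (Adm J) := by
    refine Finset.filter_congr fun u _ => ?_
    constructor
    · intro h i
      rw [← h]
      simp
    · intro h
      ext i
      simp only [Finset.mem_filter, Finset.mem_univ, true_and]
      exact h i
  rw [hfil, Finset.sum_congr rfl (key J)]
  rw [← Finset.sum_fiberwise (P.filter (Adm J)) (fun u => amin m u)]
  refine Finset.sum_congr rfl fun τ _ => ?_
  have e2 : ∀ u ∈ (P.filter (Adm J)).filter (fun u => amin m u = τ),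
      (M.L ^ (free A m J (amin m u)).card * (b0 J (amin m u) *
        (if ford A m e u = N then
          Polynomial.eval₂ (Int.castRingHom R) Y (wt A m J (amin m u) N u) else 0) +
        ∑ l ∈ Finset.Icc 1 N, if e * l ≤ N then
          b1 J (amin m u) * Y ^ l *
            (if ford A m e u = N - e * l then
              Polynomial.eval₂ (Int.castRingHom R) Y (wt A m J (amin m u) N u) else 0)
          else 0)) = M.L ^ (free A m J τ).card * (b0 J τ *
        (if ford A m e u = N then
          Polynomial.eval₂ (Int.castRingHom R) Y (wt A m J τ N u) else 0) +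
        ∑ l ∈ Finset.Icc 1 N, if e * l ≤ N then
          b1 J τ * Y ^ l *
            (if ford A m e u = N - e * l then
              Polynomial.eval₂ (Int.castRingHom R) Y (wt A m J τ N u) else 0)
          else 0) := by
    intro u hu
    rw [(Finset.mem_filter.1 hu).2]
  rw [Finset.sum_congr rfl e2, ← Finset.mul_sum, Finset.sum_add_distrib, ← Finset.mul_sum,
    Finset.sum_comm, ev_cp]
  congr 2
  refine Finset.sum_congr rfl fun l _ => ?_
  split_ifs with h7
  · rw [← Finset.mul_sum, ev_cp]
  · exact Finset.sum_const_zero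


end Pool.Agent.Y228.GN
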