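import Pool.Agent.Y228.GN.EC1
import Pool.Agent.Y229.CF.N4A

/-!
# The equivariant motivic zeta function at the origin, four variables, compact faces
-/

set_option autoImplicit false

namespace Pool.Agent.Y228.GN

section
open MvPolynomial
open Pool.Agent.TH216.MF
open Pool.Agent.W428.MOT Pool.Agent.W749.MT Pool.Agent.W749.ME
open Pool.Agent.W605.MEInd (dact_gbar dact_prod ne_zero_of_pow)
open Pool.Agent.W426.SM (ford gord face)
open Pool.Agent.TH216.MC
open Pool.Agent.W425.MM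
open Pool.Agent.W375.MT (echi_empty)
open Pool.Agent.Y231.N4

variable {k : Type} [Field k] {r : ℕ} {R : Type} [CommRing R]

/-- **The classes of the bases and their relations, four variables, `J = univ`.** -/
theorem ex_classes4c (hTw : S_ETw) (hFree : S_EFree) (hSub : S_ESub) [CharZero k]
    {m : Fin r → Fin 4 → ℕ} {c : Fin r → k} (hNon : ∀ u, Pool.Agent.W428.MOT.Adm Finset.univ u → NonU m c u) (hc : ∀ j, c j ≠ 0)
    (hJ : ∀ u : Fin 4 → ℕ, Pool.Agent.W428.MOT.Adm Finset.univ u → 0 < gord m u)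
    (M : EMeas (sp 0 m c 1) R) (y : Rˣ) (hML : M.L = (y : R)) :
    ∃ (b0 b1 : Finset (Fin r) → R), b0 ∅ = 0 ∧
      (∀ (τ : Finset (Fin r)) (u : Fin 4 → ℕ), Pool.Agent.W428.MOT.Adm Finset.univ u →
        amin m u = τ →
      (0 < ford 0 m 1 u →
        M.χ _ (EB0 0 m c 1 Finset.univ τ) (bw 0 m Finset.univ τ u) (ford 0 m 1 u)
          (bb Finset.univ) = b0 τ) ∧
      ∀ l, 1 ≤ l →
        M.χ _ (EB1 0 m c 1 Finset.univ τ) (bw1 0 m Finset.univ τ u l) (ford 0 m 1 u + 1 * l)
          (bb1 Finset.univ) = b1 τ) ∧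
      ClRA y m (b1 ∅) b0 ∧ ClRA y m (b1 ∅) b1 := by
  classical
  have hK : CharZero (AlgebraicClosure k) :=
    charZero_of_injective_algebraMap (algebraMap k (AlgebraicClosure k)).injective
  set J : Finset (Fin 4) := Finset.univ with hJdef
  have hchoice : ∀ τ, ∃ u : Fin 4 → ℕ, AdS m τ →
      (Pool.Agent.W428.MOT.Adm J u ∧ τ ⊆ amin m u) := by
    intro τ
    by_cases h : AdS m τ
    · obtain ⟨u, hu⟩ := h
      exact ⟨u, fun _ => hu⟩
    · exact ⟨0, fun h' => absurd h' h⟩
  choose U hU using hchoice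
  have hmin : ∀ {τ : Finset (Fin r)} {u : Fin 4 → ℕ}, τ ⊆ amin m u →
      ∀ j ∈ τ, ∑ i, u i * m j i = gord m u := fun h j hj => (mem_amin m _ j).1 (h hj)
  -- independence for the two functions
  have ind1 : ∀ (τ : Finset (Fin r)) (u u' : Fin 4 → ℕ) (N N' : ℕ),
      Pool.Agent.W428.MOT.Adm J u → Pool.Agent.W428.MOT.Adm J u' →
      τ ⊆ amin m u → τ ⊆ amin m u' → 0 < N → 0 < N' →
      cX M J (fun _ => 0) τ u N = cX M J (fun _ => 0) τ u' N' := by
    intro τ u u' N N' hu hu' hτ hτ' hN hN'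
    refine cX_ind hTw M ⟨hu, hJ u hu, hN⟩ ⟨hu', hJ u' hu', hN'⟩ IsPF.zero τ (hmin hτ)
      (hmin hτ') ?_ ?_ ?_
    · intro l _ z
      rw [mul_zero]
    · intro l _ z
      rw [mul_zero]
    · intro l _ z
      rw [mul_zero]
  have ind0 : ∀ (τ : Finset (Fin r)) (u u' : Fin 4 → ℕ), Pool.Agent.W428.MOT.Adm J u →
      Pool.Agent.W428.MOT.Adm J u' → τ ⊆ amin m u → τ ⊆ amin m u' →
      cX M J (fun z => z none) τ u (gord m u) = cX M J (fun z => z none) τ u' (gord m u') := by
    intro τ u u' hu hu' hτ hτ'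
    refine cX_ind hTw M ⟨hu, hJ u hu, hJ u hu⟩ ⟨hu', hJ u' hu', hJ u' hu'⟩ (IsPF.coord none) τ
      (hmin hτ) (hmin hτ') ?_ ?_ ?_
    · intro l _ z
      rfl
    · intro l _ z
      rfl
    · intro l _ z
      rfl
  have hw : ∀ (u : Fin 4 → ℕ) (N : ℕ), cX M J (fun _ => 0) (∅ : Finset (Fin r)) u N =
      M.χ _ (ZE k J {z | z none = 1}) (rw' J u N) N (bb1 J) := by
    intro u N
    unfold cX
    have e1 : free 0 m J (∅ : Finset (Fin r)) = J := by
      unfold free
      rw [Finset.filter_true_of_mem]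
      intro i _
      exact ⟨rfl, fun j hj => absurd hj (Finset.notMem_empty _)⟩
    have e2 : XE m c (fun _ => 0) (∅ : Finset (Fin r)) = {z | z none = 1} := by
      ext z
      simp [XE, gbar]
    rw [e1, e2]
  have hemp : ∀ (u : Fin 4 → ℕ), Pool.Agent.W428.MOT.Adm J u →
      cX M J (fun z => z none) (∅ : Finset (Fin r)) u (gord m u) = 0 := by
    intro u hu
    unfold cX
    have e2 : ZE k (free 0 m J (∅ : Finset (Fin r)))
        (XE m c (fun z => z none) (∅ : Finset (Fin r))) = ∅ := by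
      rw [Set.eq_empty_iff_forall_notMem]
      rintro z ⟨-, -, h1, h2⟩
      rw [show gbar m (cb c) ∅ (fun i => z (some i)) = 0 from Finset.sum_empty] at h1
      beta_reduce at h1
      rw [h2] at h1
      exact zero_ne_one h1
    rw [e2]
    refine echi_empty M (S := ZE k (free 0 m J (∅ : Finset (Fin r)))
        (XE m c (fun z => z none) (∅ : Finset (Fin r)))) ?_
    exact valid_ZE (c := c) ⟨hu, hJ u hu, hJ u hu⟩ _ (constr_XE m c (IsPF.coord none) _)
      (stb_XE m c u _ (hJ u hu) _ (fun z => z none) (fun l _ z => rfl) _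
        (fun j hj => absurd hj (Finset.notMem_empty _)) (free_zero m J _))
  set B0 : Finset (Fin r) → R := fun τ =>
    if AdS m τ then cX M J (fun z => z none) τ (U τ) (gord m (U τ)) else 0 with hB0
  set B1 : Finset (Fin r) → R := fun τ =>
    if AdS m τ then cX M J (fun _ => 0) τ (U τ) (gord m (U τ)) else 0 with hB1
  -- the values at a common vector
  have v0 : ∀ (u : Fin 4 → ℕ), Pool.Agent.W428.MOT.Adm J u → ∀ τ, τ ⊆ amin m u →
      B0 τ = cX M J (fun z => z none) τ u (gord m u) := by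
    intro u hu τ hτ
    have hA : AdS m τ := ⟨u, hu, hτ⟩
    simp only [hB0]
    rw [if_pos hA]
    exact ind0 τ _ _ (hU τ hA).1 hu (hU τ hA).2 hτ
  have v1 : ∀ (u : Fin 4 → ℕ), Pool.Agent.W428.MOT.Adm J u → ∀ τ, τ ⊆ amin m u →
      B1 τ = cX M J (fun _ => 0) τ u (gord m u) := by
    intro u hu τ hτ
    have hA : AdS m τ := ⟨u, hu, hτ⟩
    simp only [hB1]
    rw [if_pos hA]
    exact ind1 τ _ _ _ _ (hU τ hA).1 hu (hU τ hA).2 hτ (hJ _ (hU τ hA).1) (hJ u hu)
  have vw : ∀ (u : Fin 4 → ℕ), Pool.Agent.W428.MOT.Adm J u →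
      B1 ∅ = M.χ _ (ZE k J {z | z none = 1}) (rw' J u (gord m u)) (gord m u) (bb1 J) := by
    intro u hu
    rw [v1 u hu ∅ (Finset.empty_subset _), hw]
  have hzz : ∀ (u : Fin 4 → ℕ) (T : Finset (Fin 4)) (l : AlgebraicClosure k),
      l ^ gord m u = 1 → ∀ z : Pt k (Option (Fin 4)),
      dact (rw' T u (gord m u)) l z none = l ^ (gord m u : ℤ) * z none := fun u T l _ z => rfl
  refine ⟨B0, B1, ?_, ?_, ⟨?_, ?_⟩, ⟨?_, ?_⟩⟩
  · simp only [hB0]
    by_cases h : AdS m ∅
    · rw [if_pos h]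
      exact hemp _ (hU ∅ h).1
    · rw [if_neg h]
  · intro τ u hu hτ
    have hs : τ ⊆ amin m u := by rw [hτ]
    refine ⟨fun _ => ?_, fun l hl => ?_⟩
    · rw [v0 u hu τ hs, ford_eq, EB0_eq M hu (hJ u hu) τ hτ]
    · rw [v1 u hu τ hs, ford_eq, EB1_eq, bw1_eq, one_mul]
      exact ind1 τ u u _ _ hu hu hs hs (by omega) (hJ _ hu)
  · intro i j0 hj0 τ hτ hA
    obtain ⟨u, hU1, hU2⟩ := hA
    have hg := hJ u hU1
    have hdat : Dat m c J u (gord m u) := ⟨hU1, hg, hg⟩
    have hs : τ ⊆ amin m u := (Finset.subset_insert _ _).trans hU2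
    rw [vw u hU1, v0 u hU1 _ hU2, v0 u hU1 _ hs, ← hML]
    exact XE_step hFree hSub hc M hdat (IsPF.coord none) (fun _ _ h => h)
        (fun T l _ z => rfl) i (Finset.mem_univ i) j0 hj0 τ hτ (hmin hU2)
  · intro i x hix τ0 τ1 τ2 t0 t1 t2 hn1 hn2 hx
    obtain ⟨u, hu, hua⟩ := hx
    have hU1 : Pool.Agent.W428.MOT.Adm J u := adm_univ hu
    have hg := hJ u hU1
    have hdat : Dat m c J u (gord m u) := ⟨hU1, hg, hg⟩
    have hU2 : τ0 ∪ (τ1 ∪ τ2) ⊆ amin m u := by rw [hua]
    have s0 : τ0 ⊆ amin m u := Finset.subset_union_left.trans hU2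
    have s1 : τ1 ⊆ amin m u :=
      (Finset.subset_union_left.trans Finset.subset_union_right).trans hU2
    have s2 : τ2 ⊆ amin m u :=
      (Finset.subset_union_right.trans Finset.subset_union_right).trans hU2
    rw [vw u hU1, v0 u hU1 _ hU2, v0 u hU1 _ (Finset.union_subset s0 s1),
      v0 u hU1 _ (Finset.union_subset s0 s2), v0 u hU1 _ s0, ← hML]
    exact XE_two hFree hSub M hdat (IsPF.coord none) (fun _ _ h => h) (fun T l _ z => rfl)
      i x (Finset.mem_univ i) (Finset.mem_univ x) hix τ0 τ1 τ2 t0 t1 t2 hn1 hn2 (hmin hU2)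
      (Pool.Agent.Y229.CF.Mot.no_common4' hix
        (fun u hu z hz h0 => hNon u (adm_univ hu) z (fun i _ => hz i) h0) u hu τ0 τ1 τ2 hua t0 t1
        t2 hn1 hn2)
  · intro i j0 hj0 τ hτ hA
    obtain ⟨u, hU1, hU2⟩ := hA
    have hg := hJ u hU1
    have hdat : Dat m c J u (gord m u) := ⟨hU1, hg, hg⟩
    have hs : τ ⊆ amin m u := (Finset.subset_insert _ _).trans hU2
    rw [vw u hU1, v1 u hU1 _ hU2, v1 u hU1 _ hs, ← hML]
    exact XE_step hFree hSub hc M hdat IsPF.zero (fun _ _ _ => rfl)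
        (fun T l _ z => by rw [mul_zero]) i (Finset.mem_univ i) j0 hj0 τ hτ (hmin hU2)
  · intro i x hix τ0 τ1 τ2 t0 t1 t2 hn1 hn2 hx
    obtain ⟨u, hu, hua⟩ := hx
    have hU1 : Pool.Agent.W428.MOT.Adm J u := adm_univ hu
    have hg := hJ u hU1
    have hdat : Dat m c J u (gord m u) := ⟨hU1, hg, hg⟩
    have hU2 : τ0 ∪ (τ1 ∪ τ2) ⊆ amin m u := by rw [hua]
    have s0 : τ0 ⊆ amin m u := Finset.subset_union_left.trans hU2
    have s1 : τ1 ⊆ amin m u :=
      (Finset.subset_union_left.trans Finset.subset_union_right).trans hU2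
    have s2 : τ2 ⊆ amin m u :=
      (Finset.subset_union_right.trans Finset.subset_union_right).trans hU2
    rw [vw u hU1, v1 u hU1 _ hU2, v1 u hU1 _ (Finset.union_subset s0 s1),
      v1 u hU1 _ (Finset.union_subset s0 s2), v1 u hU1 _ s0, ← hML]
    exact XE_two hFree hSub M hdat IsPF.zero (fun _ _ _ => rfl)
      (fun T l _ z => by rw [mul_zero])
      i x (Finset.mem_univ i) (Finset.mem_univ x) hix τ0 τ1 τ2 t0 t1 t2 hn1 hn2 (hmin hU2)
      (Pool.Agent.Y229.CF.Mot.no_common4' hix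
        (fun u hu z hz h0 => hNon u (adm_univ hu) z (fun i _ => hz i) h0) u hu τ0 τ1 τ2 hua t0 t1
        t2 hn1 hn2)


end

section
open Pool.Agent.TH216.MF
open MvPolynomial
open Pool.Agent.W428.MOT Pool.Agent.W749.MT Pool.Agent.W749.ME Pool.Agent.W425.MM
open Pool.Agent.W425.MM.Mot
open Pool.Agent.W375.MG (Good GB0 GB1 constr_W constr_GB1 zetaG)
open Pool.Agent.TH216.MC (b0_empty b0_rel b1_rel pos_of_ray ex_classes ford_eq cser_zero)
open Pool.Agent.W426.SM (gord ford IsRay face)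
open Pool.Agent.W63.MTFin (mapMeas geo_sum L_mul ev C_mem X_mem)
open Pool.Agent.Y231.N4

/-- **Equivariant motivic zeta functions at the origin of a nondegenerate polynomial in four
variables.** -/
theorem fin4c {r : ℕ} (m : Fin r → Fin 4 → ℕ) (hm : Function.Injective m) (hr0 : 0 < r)
    (Bad : ℚ → Prop)
    (hB : ∀ q : ℕ, 2 ≤ q → ∀ e : Finset (Fin r) → ℂ,
      KRelJ q m Finset.univ e → KRelB q m e → ∀ T0 : ℂ, T0 ≠ 0 → ∀ σ : ℚ, Bad σ →
      Real.log ‖T0‖ / Real.log q = (σ : ℝ) → RecJ q m e Finset.univ T0) :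
    ∃ S : Finset (ℤ × ℤ),
      (∀ p ∈ S, p = (-1, 1) ∨ ∃ a : Fin 4 → ℕ, IsRay m a ∧ 0 < gord m a ∧
        ¬ Bad (((∑ i, a i : ℕ) : ℚ) / gord m a) ∧
        p = (-((∑ i, a i : ℕ) : ℤ), (gord m a : ℤ))) ∧
      (∀ (k : Type) [Field k] [CharZero k] (c : Fin r → k),
        (∀ u, Pool.Agent.W428.MOT.Adm Finset.univ u → NonU m c u) → (∀ j, c j ≠ 0) →
        (∀ u : Fin 4 → ℕ, Pool.Agent.W428.MOT.Adm Finset.univ u → 0 < gord m u) →
        ∀ (R : Type) [CommRing R] (y : Rˣ) (M : EMeas (sp 0 m c 1) R), M.L = (y : R) →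
        OrigM M → serM M y ∈ ratR y (S : Set (ℤ × ℤ))) := by
  classical
  obtain ⟨l, hl⟩ := lists4 m hm hr0 Bad False hB (fun h => h.elim)
  set S : Finset (ℤ × ℤ) := insert (-1, 1) (Finset.univ.biUnion fun J : Finset (Fin 4) =>
    (l J).toFinset.image fun a => (-((∑ i, a i : ℕ) : ℤ), (gord m a : ℤ))) with hS
  have hS1 : ((-1 : ℤ), (1 : ℤ)) ∈ S := Finset.mem_insert_self _ _
  have hS2 : ∀ J, ∀ a ∈ l J, (-((∑ i, a i : ℕ) : ℤ), (gord m a : ℤ)) ∈ S :=
    fun J a ha => Finset.mem_insert_of_mem (Finset.mem_biUnion.2 ⟨J, Finset.mem_univ _,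
      Finset.mem_image.2 ⟨a, List.mem_toFinset.2 ha, rfl⟩⟩)
  refine ⟨S, fun p hp => ?_, ?_⟩
  · rcases Finset.mem_insert.1 hp with rfl | hp
    · exact Or.inl rfl
    · right
      obtain ⟨J, -, hp⟩ := Finset.mem_biUnion.1 hp
      obtain ⟨a, ha, rfl⟩ := Finset.mem_image.1 hp
      obtain ⟨ha1, ha2, ha3⟩ := (hl J).1 a (List.mem_toFinset.1 ha)
      exact ⟨a, ha1, ha2, ha3, rfl⟩
  · intro k _ _ c hNon hc hpos R _ y M hML hO
    have h5 : S_CP1 := Pool.Agent.W346.MTCp1.main
    have hFree : S_EFree := Pool.Agent.W230.ME.Free.main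
    have hSub : S_ESub := Pool.Agent.W366.MESub.main
    have hTay : S_Tay := Pool.Agent.W417.MT.Tay.main
    have hTw : S_ETw := Pool.Agent.W578.ME.etw
    set Y : R := ((y⁻¹ : Rˣ) : R) with hY
    have hL : M.L * Y = 1 := by rw [hML, Units.mul_inv]
    -- the classes
    have hcls : ∀ J : Finset (Fin 4), ∃ (b0 b1 : Finset (Fin r) → R),
        (∀ (τ : Finset (Fin r)) (u : Fin 4 → ℕ), Pool.Agent.W428.MOT.Adm J u → amin m u = τ →
        (0 < ford 0 m 1 u →
          M.χ _ (EB0 0 m c 1 J τ) (bw 0 m J τ u) (ford 0 m 1 u) (bb J) = b0 τ) ∧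
        ∀ l, 1 ≤ l →
          M.χ _ (EB1 0 m c 1 J τ) (bw1 0 m J τ u l) (ford 0 m 1 u + 1 * l) (bb1 J) = b1 τ) ∧
        FR y m J b0 b1 ∈ ratR y (S : Set (ℤ × ℤ)) ∧
        (J ≠ Finset.univ → ∀ τ, b0 τ = 0 ∧ b1 τ = 0) := by
      intro J
      by_cases hJ : J = Finset.univ
      · subst hJ
        obtain ⟨b0, b1, h00, hb, hc0, hc1⟩ :=
          ex_classes4c hTw hFree hSub hNon hc hpos M y hML
        refine ⟨b0, b1, hb, mem_of_mul y hS1 _ ?_, fun h => absurd rfl h⟩
        refine inRatP y m Finset.univ (l Finset.univ)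
          (fun a ha => ⟨((hl _).1 a ha).2.1, hS2 _ a ha⟩) (pB m)
          (fun κ => polS_pB κ) (fun κ => pB_empty κ) ((hl Finset.univ).2.1 rfl)
          (b1 ∅) (Fc m) (fun τ h => cser_zero4 m τ h) b0 b1 h00 rfl ?_ ?_
        · intro τ hτ
          exact decomp4A y m _ _ hc0 τ hτ
        · intro τ hτ
          exact decomp4A y m _ _ hc1 τ hτ
      · obtain ⟨i, hi⟩ : ∃ i, i ∉ J := by
          by_contra hcon
          push Not at hcon
          exact hJ (Finset.eq_univ_iff_forall.2 hcon)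
        refine ⟨fun _ => 0, fun _ => 0, fun τ u hu hτ => ⟨fun hf => ?_, fun l hl => ?_⟩, ?_,
          fun _ _ => ⟨rfl, rfl⟩⟩
        · refine hO _ _ _ _ _
            (Pool.Agent.W605.MEInd.valid0 0 m c 1 one_pos J τ u hu hτ hf) fun z hz h0 => ?_
          have h6 := congrFun h0 i
          have h7 : cbase (bb J) z i = z i := by
            unfold cbase bb
            rw [if_neg hi]
            rfl
          rw [h7] at h6
          exact hz.1 i h6
        · refine hO _ _ _ _ _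
            (Pool.Agent.W605.MEInd.valid1 0 m c 1 one_pos J τ u hu hτ l hl) fun z hz h0 => ?_
          have h6 := congrFun h0 i
          have h7 : cbase (bb1 J) z i = z (some i) := by
            unfold cbase bb1
            rw [if_neg hi]
            rfl
          rw [h7] at h6
          exact hz.1 i h6
        · have h6 : FR y m J (fun _ => (0 : R)) (fun _ => 0) = 0 := by
            unfold FR
            refine Finset.sum_eq_zero fun τ _ => ?_
            simp
          rw [h6]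
          exact (ratR y (S : Set (ℤ × ℤ))).zero_mem
    choose b0 b1 hb hFRm hb0 using hcls
    have hsum := eSumPc
      (Pool.Agent.W375.MT.EJet.main hFree) Pool.Agent.W375.MT.EShift.main
      (Pool.Agent.W375.MT.ECond.main Pool.Agent.W440.MT.ord)
      (EMot.eStB hFree hTay) hFree hSub hTay 0 m c 1 M hNon hO hr0 one_pos Y hL b0 b1
      hb hb0
    -- the series
    set C : Finset (Fin 4) → Finset (Fin r) → PowerSeries R := fun J τ =>
      PowerSeries.map (evR y) (cser m J τ) with hCdef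
    have hCc : ∀ J τ N, PowerSeries.coeff N (C J τ) =
        Polynomial.eval₂ (Int.castRingHom R) Y (cp 0 m 1 J τ N N) := fun J τ N => by
      simp only [hCdef, cser]
      rw [PowerSeries.coeff_map, PowerSeries.coeff_mk]
      rfl
    set D : Finset (Fin 4) → Finset (Fin r) → PowerSeries R := fun J τ =>
      PowerSeries.mk fun N => ∑ l ∈ Finset.Icc 1 N,
        if 1 * l ≤ N then Y ^ l * PowerSeries.coeff (N - 1 * l) (C J τ) else 0
      with hDdef
    have hD : ∀ J τ, D J τ = PowerSeries.C Y * PowerSeries.X * C J τ * geoR y (-1) 1 := by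
      intro J τ
      have h6 := geo_sum Y (fun N => PowerSeries.coeff N (C J τ)) 1 one_pos
      have h7 := geoR_mul y (-1) 1 one_pos
      rw [show (1 : ℤ).toNat = 1 from rfl, zpow_neg_one] at h7
      have h9 : PowerSeries.mk (fun N => PowerSeries.coeff N (C J τ)) = C J τ := by
        ext N
        rw [PowerSeries.coeff_mk]
      rw [h9] at h6
      have h10 : D J τ * ((1 - PowerSeries.C Y * PowerSeries.X ^ 1) * geoR y (-1) 1) =
          PowerSeries.C Y * PowerSeries.X ^ 1 * C J τ * geoR y (-1) 1 := by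
        rw [← h6, mul_assoc]
      rw [h7, mul_one, pow_one] at h10
      exact h10
    set F : PowerSeries R := ∑ J : Finset (Fin 4), FR y m J (b0 J) (b1 J) with hF
    have hFmem : F ∈ ratR y (S : Set (ℤ × ℤ)) :=
      (ratR y (S : Set (ℤ × ℤ))).sum_mem fun J _ => hFRm J
    have hz : serM M y = F - PowerSeries.C (PowerSeries.coeff 0 F) := by
      ext N
      by_cases hN : N = 0
      · subst hN
        rw [serM, PowerSeries.coeff_mk, if_neg (lt_irrefl 0), map_sub, PowerSeries.coeff_C,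
          if_pos rfl, sub_self]
      · have hN' : 0 < N := Nat.pos_of_ne_zero hN
        rw [serM, PowerSeries.coeff_mk, if_pos hN', map_sub, PowerSeries.coeff_C, if_neg hN,
          sub_zero]
        have h6 := hsum N hN'
        rw [← hY, h6, hF, map_sum]
        refine Finset.sum_congr rfl fun J _ => ?_
        unfold FR
        rw [map_sum]
        refine Finset.sum_congr rfl fun τ _ => ?_
        change _ = PowerSeries.coeff N (PowerSeries.C ((y : R) ^ frc m J τ) *
          (PowerSeries.C (b0 J τ) * C J τ + PowerSeries.C (b1 J τ) *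
            (PowerSeries.C Y * PowerSeries.X * C J τ * geoR y (-1) 1)))
        rw [← hD, ← hML, PowerSeries.coeff_C_mul, map_add, PowerSeries.coeff_C_mul,
          PowerSeries.coeff_C_mul, hCc, hDdef, PowerSeries.coeff_mk, Finset.mul_sum]
        congr 2
        refine Finset.sum_congr rfl fun i _ => ?_
        split_ifs with hi
        · rw [hCc, h5 0 m 1 J τ hr0 one_pos N (N - 1 * i) (Nat.sub_le _ _), mul_assoc]
        · rw [mul_zero]
    rw [hz]
    exact (ratR y (S : Set (ℤ × ℤ))).sub_mem hFmem (CR_mem y _ _)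


end

end Pool.Agent.Y228.GN
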