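import Pool.Agent.Y228.GN.EC2
import Pool.Agent.TH216.MF.MotL

/-!
# The equivariant motivic zeta function at the origin, compact faces, any number of variables
-/

set_option autoImplicit false

namespace Pool.Agent.Y228.GN

section
open Pool.Agent.TH216.MF
open MvPolynomial
open Pool.Agent.W428.MOT Pool.Agent.W749.MT Pool.Agent.W749.ME Pool.Agent.W425.MM
open Pool.Agent.W425.MM.Mot
open Pool.Agent.W375.MG (Good GB0 GB1 constr_W constr_GB1 zetaG)
open Pool.Agent.TH216.MC (b0_empty b0_rel b1_rel pos_of_ray ex_classes ford_eq cser_zero)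
open Pool.Agent.W426.SM (gord ford IsRay face)
open Pool.Agent.W63.MTFin (mapMeas geo_sum L_mul ev C_mem X_mem)
open Pool.Agent.Y231.N4

/-- **Equivariant motivic zeta functions at the origin of a polynomial which is nondegenerate for the
compact faces: only the rays which are not bad.** -/
theorem finNc {n r : ℕ} (m : Fin r → Fin n → ℕ) (hr0 : 0 < r)
    (Bad : ℚ → Prop)
    (hB : ∀ q : ℕ, 2 ≤ q → ∀ e : Finset (Fin r) → ℂ,
      KRelJ q m Finset.univ e → ∀ T0 : ℂ, T0 ≠ 0 → ∀ σ : ℚ, Bad σ →
      Real.log ‖T0‖ / Real.log q = (σ : ℝ) → RecJ q m e Finset.univ T0) :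
    ∃ S : Finset (ℤ × ℤ),
      (∀ p ∈ S, p = (-1, 1) ∨ ∃ a : Fin n → ℕ, IsRay m a ∧ 0 < gord m a ∧
        ¬ Bad (((∑ i, a i : ℕ) : ℚ) / gord m a) ∧
        p = (-((∑ i, a i : ℕ) : ℤ), (gord m a : ℤ))) ∧
      (∀ (k : Type) [Field k] [CharZero k] (c : Fin r → k),
        (∀ u, Pool.Agent.W428.MOT.Adm Finset.univ u → NonU m c u) → (∀ j, c j ≠ 0) →
        ∀ (R : Type) [CommRing R] (y : Rˣ) (M : EMeas (sp 0 m c 1) R), M.L = (y : R) →
        OrigM M → serM M y ∈ ratR y (S : Set (ℤ × ℤ))) := by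
  classical
  obtain ⟨l, hl, hG⟩ := formal hr0 m Finset.univ Bad hB
  set S : Finset (ℤ × ℤ) := insert (-1, 1)
    (l.toFinset.image fun a => (-((∑ i, a i : ℕ) : ℤ), (gord m a : ℤ))) with hS
  have hS1 : ((-1 : ℤ), (1 : ℤ)) ∈ S := Finset.mem_insert_self _ _
  have hS2 : ∀ a ∈ l, (-((∑ i, a i : ℕ) : ℤ), (gord m a : ℤ)) ∈ S :=
    fun a ha => Finset.mem_insert_of_mem (Finset.mem_image.2 ⟨a, List.mem_toFinset.2 ha, rfl⟩)
  refine ⟨S, fun p hp => ?_, ?_⟩
  · rcases Finset.mem_insert.1 hp with rfl | hp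
    · exact Or.inl rfl
    · right
      obtain ⟨a, ha, rfl⟩ := Finset.mem_image.1 hp
      obtain ⟨ha1, ha2, ha3⟩ := hl a (List.mem_toFinset.1 ha)
      exact ⟨a, ha1, ha2, ha3, rfl⟩
  · intro k _ _ c hNon hc R _ y M hML hO
    have h5 : S_CP1 := Pool.Agent.W346.MTCp1.main
    have hFree : S_EFree := Pool.Agent.W230.ME.Free.main
    have hSub : S_ESub := Pool.Agent.W366.MESub.main
    have hTay : S_Tay := Pool.Agent.W417.MT.Tay.main
    have hTw : S_ETw := Pool.Agent.W578.ME.etw
    set Y : R := ((y⁻¹ : Rˣ) : R) with hY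
    have hL : M.L * Y = 1 := by rw [hML, Units.mul_inv]
    -- the classes
    have hcls : ∀ J : Finset (Fin n), ∃ (b0 b1 : Finset (Fin r) → R),
        (∀ (τ : Finset (Fin r)) (u : Fin n → ℕ), Pool.Agent.W428.MOT.Adm J u → amin m u = τ →
        (0 < ford 0 m 1 u →
          M.χ _ (EB0 0 m c 1 J τ) (bw 0 m J τ u) (ford 0 m 1 u) (bb J) = b0 τ) ∧
        ∀ l, 1 ≤ l →
          M.χ _ (EB1 0 m c 1 J τ) (bw1 0 m J τ u l) (ford 0 m 1 u + 1 * l) (bb1 J) = b1 τ) ∧
        FR y m J b0 b1 ∈ ratR y (S : Set (ℤ × ℤ)) ∧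
        (J ≠ Finset.univ → ∀ τ, b0 τ = 0 ∧ b1 τ = 0) := by
      intro J
      by_cases hJ : J = Finset.univ
      · subst hJ
        obtain ⟨b0, b1, hb00, hb, hrel⟩ := ex_classes hTw hFree hSub hc hr0 M Finset.univ
        refine ⟨b0, b1, hb, ?_, fun h => absurd rfl h⟩
        refine inRat_J y hS1 m Finset.univ l (fun a ha => ⟨(hl a ha).2.1, hS2 a ha⟩) hG
          (b1 ∅) (fun τ => ∃ u : Fin n → ℕ, Pool.Agent.W428.MOT.Adm Finset.univ u ∧ τ ⊆ amin m u)
          (fun τ τ' hs h => ?_) (fun τ h => cser_zero m Finset.univ τ h) b0 b1 hb00 rfl ?_ ?_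
        · obtain ⟨u, hu1, hu2⟩ := h
          exact ⟨u, hu1, hs.trans hu2⟩
        · intro i hi j0 hj0 τ hτ hA
          rw [← hML]
          exact (hrel i hi j0 hj0 τ hτ hA).1
        · intro i hi j0 hj0 τ hτ hA
          rw [← hML]
          exact (hrel i hi j0 hj0 τ hτ hA).2
      · obtain ⟨i, hi⟩ : ∃ i, i ∉ J := by
          by_contra hcon
          push Not at hcon
          exact hJ (Finset.eq_univ_iff_forall.2 hcon)
        refine ⟨fun _ => 0, fun _ => 0, fun τ u hu hτ => ⟨fun hf => ?_, fun l hl => ?_⟩, ?_,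
          fun _ _ => ⟨rfl, rfl⟩⟩
        · refine hO _ _ _ _ _
            (Pool.Agent.W605.MEInd.valid0 0 m c 1 one_pos J τ u hu hτ hf) fun z hz h0 => ?_
          have h6 := congrFun h0 i
          have h7 : cbase (bb J) z i = z i := by
            unfold cbase bb
            rw [if_neg hi]
            rfl
          rw [h7] at h6
          exact hz.1 i h6
        · refine hO _ _ _ _ _
            (Pool.Agent.W605.MEInd.valid1 0 m c 1 one_pos J τ u hu hτ l hl) fun z hz h0 => ?_
          have h6 := congrFun h0 i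
          have h7 : cbase (bb1 J) z i = z (some i) := by
            unfold cbase bb1
            rw [if_neg hi]
            rfl
          rw [h7] at h6
          exact hz.1 i h6
        · have h6 : FR y m J (fun _ => (0 : R)) (fun _ => 0) = 0 := by
            unfold FR
            refine Finset.sum_eq_zero fun τ _ => ?_
            simp
          rw [h6]
          exact (ratR y (S : Set (ℤ × ℤ))).zero_mem
    choose b0 b1 hb hFRm hb0 using hcls
    have hsum := eSumPc
      (Pool.Agent.W375.MT.EJet.main hFree) Pool.Agent.W375.MT.EShift.main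
      (Pool.Agent.W375.MT.ECond.main Pool.Agent.W440.MT.ord)
      (EMot.eStB hFree hTay) hFree hSub hTay 0 m c 1 M hNon hO hr0 one_pos Y hL b0 b1
      hb hb0
    -- the series
    set C : Finset (Fin n) → Finset (Fin r) → PowerSeries R := fun J τ =>
      PowerSeries.map (evR y) (cser m J τ) with hCdef
    have hCc : ∀ J τ N, PowerSeries.coeff N (C J τ) =
        Polynomial.eval₂ (Int.castRingHom R) Y (cp 0 m 1 J τ N N) := fun J τ N => by
      simp only [hCdef, cser]
      rw [PowerSeries.coeff_map, PowerSeries.coeff_mk]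
      rfl
    set D : Finset (Fin n) → Finset (Fin r) → PowerSeries R := fun J τ =>
      PowerSeries.mk fun N => ∑ l ∈ Finset.Icc 1 N,
        if 1 * l ≤ N then Y ^ l * PowerSeries.coeff (N - 1 * l) (C J τ) else 0
      with hDdef
    have hD : ∀ J τ, D J τ = PowerSeries.C Y * PowerSeries.X * C J τ * geoR y (-1) 1 := by
      intro J τ
      have h6 := geo_sum Y (fun N => PowerSeries.coeff N (C J τ)) 1 one_pos
      have h7 := geoR_mul y (-1) 1 one_pos
      rw [show (1 : ℤ).toNat = 1 from rfl, zpow_neg_one] at h7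
      have h9 : PowerSeries.mk (fun N => PowerSeries.coeff N (C J τ)) = C J τ := by
        ext N
        rw [PowerSeries.coeff_mk]
      rw [h9] at h6
      have h10 : D J τ * ((1 - PowerSeries.C Y * PowerSeries.X ^ 1) * geoR y (-1) 1) =
          PowerSeries.C Y * PowerSeries.X ^ 1 * C J τ * geoR y (-1) 1 := by
        rw [← h6, mul_assoc]
      rw [h7, mul_one, pow_one] at h10
      exact h10
    set F : PowerSeries R := ∑ J : Finset (Fin n), FR y m J (b0 J) (b1 J) with hF
    have hFmem : F ∈ ratR y (S : Set (ℤ × ℤ)) :=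
      (ratR y (S : Set (ℤ × ℤ))).sum_mem fun J _ => hFRm J
    have hz : serM M y = F - PowerSeries.C (PowerSeries.coeff 0 F) := by
      ext N
      by_cases hN : N = 0
      · subst hN
        rw [serM, PowerSeries.coeff_mk, if_neg (lt_irrefl 0), map_sub, PowerSeries.coeff_C,
          if_pos rfl, sub_self]
      · have hN' : 0 < N := Nat.pos_of_ne_zero hN
        rw [serM, PowerSeries.coeff_mk, if_pos hN', map_sub, PowerSeries.coeff_C, if_neg hN,
          sub_zero]
        have h6 := hsum N hN'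
        rw [← hY, h6, hF, map_sum]
        refine Finset.sum_congr rfl fun J _ => ?_
        unfold FR
        rw [map_sum]
        refine Finset.sum_congr rfl fun τ _ => ?_
        change _ = PowerSeries.coeff N (PowerSeries.C ((y : R) ^ frc m J τ) *
          (PowerSeries.C (b0 J τ) * C J τ + PowerSeries.C (b1 J τ) *
            (PowerSeries.C Y * PowerSeries.X * C J τ * geoR y (-1) 1)))
        rw [← hD, ← hML, PowerSeries.coeff_C_mul, map_add, PowerSeries.coeff_C_mul,
          PowerSeries.coeff_C_mul, hCc, hDdef, PowerSeries.coeff_mk, Finset.mul_sum]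
        congr 2
        refine Finset.sum_congr rfl fun i _ => ?_
        split_ifs with hi
        · rw [hCc, h5 0 m 1 J τ hr0 one_pos N (N - 1 * i) (Nat.sub_le _ _), mul_assoc]
        · rw [mul_zero]
    rw [hz]
    exact (ratR y (S : Set (ℤ × ℤ))).sub_mem hFmem (CR_mem y _ _)


end

end Pool.Agent.Y228.GN
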