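import Pool.Agent.Y231.N4.PJ
import Pool.Agent.Y231.N4.M5
import Pool.Agent.Y231.N4.K4
import Pool.Agent.Y228.ND4.M1

/-!
# Exponents which are not vertices, the strata `J ≠ univ`, for a fixed list of exponents
-/

set_option autoImplicit false

namespace Pool.Agent.Y228.GN

open Pool.Agent.TH216.MF
open Pool.Agent.TH216.LX
open Pool.Agent.TH216.ND
open Pool.Agent.TH216.HD (Spans)
open Pool.Agent.W426.SM (gord)
open Pool.Agent.Y231.N4
open Pool.Agent.Y228.ND4

variable {r N : ℕ}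

open Classical in
/-- the exponents over the convex hull of `τ` -/
noncomputable def PhiV (v : Fin r → Fin N → ℕ) (V : Finset (Fin r)) (J : Finset (Fin N))
    (τ : Finset (Fin V.card)) : Finset (Fin r) :=
  Finset.univ.filter fun j => (∃ x ∈ τ, iV V x = j) ∨ (j ∉ V ∧ InJ (vV v V) J τ (v j))

lemma phiV_mem (v : Fin r → Fin N → ℕ) (V : Finset (Fin r)) (J : Finset (Fin N))
    (τ : Finset (Fin V.card)) (x : Fin V.card) : iV V x ∈ PhiV v V J τ ↔ x ∈ τ := by
  classical
  unfold PhiV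
  rw [Finset.mem_filter]
  constructor
  · rintro ⟨-, ⟨y, hy, he⟩ | ⟨h, -⟩⟩
    · exact iV_inj V he ▸ hy
    · exact absurd (iV_mem V x) h
  · exact fun h => ⟨Finset.mem_univ _, Or.inl ⟨x, h, rfl⟩⟩

lemma phiV_out (v : Fin r → Fin N → ℕ) (V : Finset (Fin r)) (J : Finset (Fin N))
    (τ : Finset (Fin V.card)) {j : Fin r} (hj : j ∉ V) :
    j ∈ PhiV v V J τ ↔ InJ (vV v V) J τ (v j) := by
  classical
  unfold PhiV
  rw [Finset.mem_filter]
  constructor
  · rintro ⟨-, ⟨y, hy, he⟩ | ⟨-, h⟩⟩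
    · exact absurd (he ▸ iV_mem V y) hj
    · exact h
  · exact fun h => ⟨Finset.mem_univ _, Or.inr ⟨hj, h⟩⟩

/-- no exponent outside `V` has the same coordinates in `J` as an exponent in `V` with a coordinate
`1` in `J` -/
def SepV (v : Fin r → Fin N → ℕ) (V : Finset (Fin r)) (J : Finset (Fin N)) : Prop :=
  ∀ j ∈ V, ∀ i ∈ J, v j i = 1 → ∀ l, l ∉ V → ∃ y ∈ J, v l y ≠ v j y

/-- the relations -/
lemma krelJ_phiV (v : Fin r → Fin N → ℕ) (V : Finset (Fin r)) (J : Finset (Fin N))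
    (hsep : SepV v V J) (q : ℕ)
    (e : Finset (Fin r) → ℂ) (h : KRelJ q v J e) :
    KRelJ q (vV v V) J (fun τ => e (PhiV v V J τ)) := by
  classical
  intro i hi j0 τ hj0 hτ
  have h1 : PhiV v V J (insert j0 τ) = insert (iV V j0) (PhiV v V J τ) := by
    ext j
    by_cases hj : j ∈ V
    · obtain ⟨x, rfl⟩ := iV_surj V hj
      rw [phiV_mem, Finset.mem_insert, Finset.mem_insert, phiV_mem, (iV_inj V).eq_iff]
    · rw [phiV_out v V J _ hj, Finset.mem_insert, phiV_out v V J _ hj, inJ_insert hi hj0 hτ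
        (hsep _ (iV_mem V j0) i hi hj0 j hj)]
      constructor
      · exact Or.inr
      · rintro (h2 | h2)
        · exact absurd (h2 ▸ iV_mem V j0) hj
        · exact h2
  simp only [h1]
  refine h i hi (iV V j0) (PhiV v V J τ) hj0 fun j hj => ?_
  by_cases hjV : j ∈ V
  · obtain ⟨x, rfl⟩ := iV_surj V hjV
    exact hτ x ((phiV_mem v V J τ x).1 hj)
  · rw [phiV_out v V J τ hjV] at hj
    obtain ⟨c, h2, h3, h4, h5⟩ := hj
    have h6 : (v j i : ℝ) = 0 := by
      rw [← h5 i hi]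
      refine Finset.sum_eq_zero fun j' _ => ?_
      by_cases hj' : j' ∈ τ
      · rw [hτ j' hj', Nat.cast_zero, mul_zero]
      · rw [h3 j' hj', zero_mul]
    exact_mod_cast h6

/-- the terms -/
lemma wt_phiV (v : Fin r → Fin N → ℕ) (V : Finset (Fin r)) (J : Finset (Fin N))
    (hb : ∀ j, InN (vV v V) Finset.univ (v j)) (e : Finset (Fin r) → ℂ) (t : ℤ)
    (x : Fin N → ℕ) (hxJ : ∀ i, x i ≠ 0 ↔ i ∈ J) :
    Wt (vV v V) (fun τ => e (PhiV v V J τ)) t x = Wt v e t x := by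
  classical
  have hpair : ∀ c : Fin V.card → ℝ, ∑ j, c j * ((∑ i, x i * vV v V j i : ℕ) : ℝ) =
      ∑ i, (x i : ℝ) * ∑ j, c j * (vV v V j i : ℝ) := fun c => inN_pair (vV v V) c x
  have hle : (∀ j, t ≤ ((∑ i, x i * vV v V j i : ℕ) : ℤ)) → ∀ l,
      t ≤ ((∑ i, x i * v l i : ℕ) : ℤ) := by
    intro h l
    obtain ⟨c, h1, h2, h3, -⟩ := hb l
    have h4 : (t : ℝ) ≤ ((∑ i, x i * v l i : ℕ) : ℝ) := by
      calc (t : ℝ) = ∑ j, c j * (t : ℝ) := by rw [← Finset.sum_mul, h2, one_mul]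
        _ ≤ ∑ j, c j * ((∑ i, x i * vV v V j i : ℕ) : ℝ) := by
            refine Finset.sum_le_sum fun j _ => mul_le_mul_of_nonneg_left ?_ (h1 j)
            exact_mod_cast h j
        _ = ∑ i, (x i : ℝ) * ∑ j, c j * (vV v V j i : ℝ) := hpair c
        _ ≤ ∑ i, (x i : ℝ) * (v l i : ℝ) := Finset.sum_le_sum fun i _ =>
            mul_le_mul_of_nonneg_left (h3 i) (by positivity)
        _ = ((∑ i, x i * v l i : ℕ) : ℝ) := by push_cast; rfl
    exact_mod_cast h4
  unfold Wt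
  by_cases h : ∀ j, t ≤ ((∑ i, x i * vV v V j i : ℕ) : ℤ)
  swap
  · rw [if_neg h, if_neg]
    intro h'
    exact h fun j => h' (iV V j)
  rw [if_pos h, if_pos (hle h)]
  beta_reduce
  congr 1
  ext j
  by_cases hjV : j ∈ V
  · obtain ⟨y, rfl⟩ := iV_surj V hjV
    rw [phiV_mem, Finset.mem_filter, Finset.mem_filter]
    simp only [Finset.mem_univ, true_and]
    exact Iff.rfl
  · rw [phiV_out v V J _ hjV, Finset.mem_filter]
    simp only [Finset.mem_univ, true_and]
    constructor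
    · rintro ⟨c, h1, h2, h3, h4⟩
      have h5 : ((∑ i, x i * v j i : ℕ) : ℝ) = (t : ℝ) := by
        calc ((∑ i, x i * v j i : ℕ) : ℝ) = ∑ i, (x i : ℝ) * (v j i : ℝ) := by push_cast; rfl
          _ = ∑ i, (x i : ℝ) * ∑ j, c j * (vV v V j i : ℝ) := by
              refine Finset.sum_congr rfl fun i _ => ?_
              by_cases hi : i ∈ J
              · rw [h4 i hi]
              · have : x i = 0 := by
                  by_contra h6
                  exact hi ((hxJ i).1 h6)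
                rw [this, Nat.cast_zero, zero_mul, zero_mul]
          _ = ∑ j, c j * ((∑ i, x i * vV v V j i : ℕ) : ℝ) := (hpair c).symm
          _ = ∑ j, c j * (t : ℝ) := by
              refine Finset.sum_congr rfl fun j _ => ?_
              by_cases hj : j ∈ (Finset.univ.filter fun j : Fin V.card =>
                ((∑ i, x i * vV v V j i : ℕ) : ℤ) = t)
              · have h6 := (Finset.mem_filter.1 hj).2
                have h7 : ((∑ i, x i * vV v V j i : ℕ) : ℝ) = (t : ℝ) := by exact_mod_cast h6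
                rw [h7]
              · rw [h2 j hj, zero_mul, zero_mul]
          _ = (t : ℝ) := by rw [← Finset.sum_mul, h3, one_mul]
      exact_mod_cast h5
    · intro hl
      obtain ⟨c, h1, h2, h3, -⟩ := hb j
      have hl' : ((∑ i, x i * v j i : ℕ) : ℝ) = (t : ℝ) := by exact_mod_cast hl
      have e1 : (t : ℝ) = ∑ j, c j * (t : ℝ) := by rw [← Finset.sum_mul, h2, one_mul]
      have e2 : ∑ j, c j * (t : ℝ) ≤ ∑ j, c j * ((∑ i, x i * vV v V j i : ℕ) : ℝ) := by
        refine Finset.sum_le_sum fun j _ => mul_le_mul_of_nonneg_left ?_ (h1 j)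
        exact_mod_cast h j
      have e3 : ∑ i, (x i : ℝ) * ∑ j, c j * (vV v V j i : ℝ) ≤ ∑ i, (x i : ℝ) * (v j i : ℝ) :=
        Finset.sum_le_sum fun i _ => mul_le_mul_of_nonneg_left (h3 i) (by positivity)
      have e4 : ∑ i, (x i : ℝ) * (v j i : ℝ) = (t : ℝ) := by
        rw [← hl']
        push_cast
        rfl
      rw [hpair c] at e2
      have e5 : ∑ j, c j * (((∑ i, x i * vV v V j i : ℕ) : ℝ) - (t : ℝ)) = 0 := by
        simp only [mul_sub]
        rw [Finset.sum_sub_distrib, hpair c, ← e1]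
        linarith
      have e6 : ∑ i, (x i : ℝ) * ((v j i : ℝ) - ∑ j, c j * (vV v V j i : ℝ)) = 0 := by
        simp only [mul_sub]
        rw [Finset.sum_sub_distrib, e4]
        linarith
      refine ⟨c, h1, fun j hj => ?_, h2, fun i hi => ?_⟩
      · have h7 := (Finset.sum_eq_zero_iff_of_nonneg fun j _ => mul_nonneg (h1 j) (by
          rw [sub_nonneg]
          exact_mod_cast h j)).1 e5 j (Finset.mem_univ j)
        rcases mul_eq_zero.1 h7 with h8 | h8
        · exact h8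
        · exfalso
          apply hj
          rw [Finset.mem_filter]
          refine ⟨Finset.mem_univ j, ?_⟩
          rw [sub_eq_zero] at h8
          exact_mod_cast h8
      · have h7 := (Finset.sum_eq_zero_iff_of_nonneg fun i _ => mul_nonneg (by positivity)
          (sub_nonneg.2 (h3 i))).1 e6 i (Finset.mem_univ i)
        rcases mul_eq_zero.1 h7 with h8 | h8
        · exfalso
          exact (hxJ i).2 hi (by exact_mod_cast h8)
        · linarith

/-- the coefficients -/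
lemma aJ_phiV (v : Fin r → Fin N → ℕ) (V : Finset (Fin r)) (J : Finset (Fin N))
    (hb : ∀ j, InN (vV v V) Finset.univ (v j)) (q : ℕ) (e : Finset (Fin r) → ℂ) (t : ℤ) :
    aJ q (vV v V) (fun τ => e (PhiV v V J τ)) J t = aJ q v e J t := by
  classical
  unfold aJ
  refine tsum_congr fun x => ?_
  by_cases hxJ : ∀ i, x i ≠ 0 ↔ i ∈ J
  swap
  · rw [if_neg hxJ, if_neg hxJ]
  rw [if_pos hxJ, if_pos hxJ, wt_phiV v V J hb e t x hxJ]

/-- the recurrences of the strata `J ≠ univ` at the bad levels -/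
theorem hbJ_nd4 (hr : 0 < r) (v : Fin r → Fin 4 → ℕ)
    (V : Finset (Fin r)) (hV : Spans v V) (P : ℚ → Prop)
    (hP : ∀ α, ¬ P α → ∃ (θ : Fin V.card → ℤ) (p : Polynomial ℂ),
      RelG (vV v V) (Pool.Agent.W425.SV.Kil1 (vV v V)) (KilU (vV v V) θ) p ∧ p.eval (α : ℂ) ≠ 0)
    (hG : ∀ J : Finset (Fin 4), J ≠ Finset.univ → (∀ j, ∃ i ∈ J, v j i ≠ 0) → SepV v V J)
    (J : Finset (Fin 4)) (hJ : J ≠ Finset.univ)
    (q : ℕ) (hq : 2 ≤ q) (e : Finset (Fin r) → ℂ)
    (he : KRelJ q v J e) (T0 : ℂ) (hT0 : T0 ≠ 0) (σ : ℚ)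
    (hσ : HypS4 (vV v V) (σ : ℝ) ∧ ¬ P (-σ))
    (hlog : Real.log ‖T0‖ / Real.log q = (σ : ℝ)) : RecJ q v e J T0 := by
  classical
  by_cases hvan : ∃ j, ∀ i ∈ J, v j i = 0
  · exact rec_zero hr q hq v e J T0 hvan
  push Not at hvan
  obtain ⟨hL, hPσ⟩ := hσ
  obtain ⟨θ, p, hrel, hp⟩ := hP _ hPσ
  have hmb : ∀ j, InN (vV v V) Finset.univ (v j) := fun j =>
    inN_vV v V Finset.univ Finset.univ (spansD_univ hV) (Finset.Subset.refl _) j
  have he1 := krelJ_phiV v V J (hG J hJ hvan) q e he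
  have h1 : ((-Real.log ‖T0‖ / Real.log q : ℝ) : ℂ) = ((-σ : ℚ) : ℂ) := by
    rw [neg_div, hlog]
    push_cast
    rfl
  obtain ⟨Q, hQ, hrec⟩ := recJ4J q hq (vV v V) p θ hrel _ J hJ he1 T0 hT0
    (by rw [h1]; exact hp) (by rw [hlog]; exact hL)
  refine ⟨Q, hQ, ?_⟩
  filter_upwards [hrec] with t ht
  rw [← ht]
  refine Finset.sum_congr rfl fun m _ => ?_
  rw [aJ_phiV v V J hmb]

end Pool.Agent.Y228.GN
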